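import Mathlib

set_option autoImplicit false

open Finset

namespace Pool.Agent.P.MP_636dfe_co

/-- there is a set of at most `c` points of `V` meeting every affine line -/
def Blk (F V : Type*) [Field F] [AddCommGroup V] [Module F V] (c : ℝ) : Prop :=
  ∃ B : Finset V, (∀ a b : V, b ≠ 0 → ∃ t : F, a + t • b ∈ B) ∧ (B.card : ℝ) ≤ c

variable {F : Type*} [Field F]

lemma Blk.mono {V : Type*} [AddCommGroup V] [Module F V] {c d : ℝ} (h : Blk F V c) (hcd : c ≤ d) :
    Blk F V d := by
  obtain ⟨B, h1, h2⟩ := h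
  exact ⟨B, h1, h2.trans hcd⟩

lemma Blk.equiv {V W : Type*} [AddCommGroup V] [Module F V] [AddCommGroup W] [Module F W] {c : ℝ}
    (e : V ≃ₗ[F] W) (h : Blk F V c) : Blk F W c := by
  classical
  obtain ⟨B, h1, h2⟩ := h
  refine ⟨B.image e, fun a b hb => ?_, ?_⟩
  · obtain ⟨t, ht⟩ := h1 (e.symm a) (e.symm b) (by simpa using hb)
    refine ⟨t, mem_image.2 ⟨_, ht, by simp⟩⟩
  · exact le_trans (by exact_mod_cast card_image_le) h2

lemma Blk.prod {V W : Type*} [AddCommGroup V] [Module F V] [AddCommGroup W] [Module F W]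
    [Fintype V] [Fintype W] {c d : ℝ} (h : Blk F V c) (h' : Blk F W d) :
    Blk F (V × W) (c * Fintype.card W + d * Fintype.card V) := by
  classical
  obtain ⟨B, h1, h2⟩ := h
  obtain ⟨C, h3, h4⟩ := h'
  refine ⟨B ×ˢ univ ∪ univ ×ˢ C, fun a b hb => ?_, ?_⟩
  · by_cases hb1 : b.1 = 0
    · have hb2 : b.2 ≠ 0 := fun h => hb (Prod.ext hb1 h)
      obtain ⟨t, ht⟩ := h3 a.2 b.2 hb2
      exact ⟨t, mem_union_right _ (mem_product.2 ⟨mem_univ _, ht⟩)⟩
    · obtain ⟨t, ht⟩ := h1 a.1 b.1 hb1
      exact ⟨t, mem_union_left _ (mem_product.2 ⟨ht, mem_univ _⟩)⟩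
  · have := card_union_le (B ×ˢ (univ : Finset W)) ((univ : Finset V) ×ˢ C)
    rw [card_product, card_product, card_univ, card_univ] at this
    have h5 : ((B ×ˢ univ ∪ univ ×ˢ C : Finset (V × W)).card : ℝ)
        ≤ B.card * Fintype.card W + Fintype.card V * C.card := by exact_mod_cast this
    have h6 : (0 : ℝ) ≤ Fintype.card W := by positivity
    have h7 : (0 : ℝ) ≤ Fintype.card V := by positivity
    nlinarith [mul_le_mul_of_nonneg_right h2 h6, mul_le_mul_of_nonneg_right h4 h7]

lemma Blk.of_finrank {V : Type*} [AddCommGroup V] [Module F V] [Module.Finite F V] {k : ℕ} {c : ℝ}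
    (hk : Module.finrank F V = k) (h : Blk F V c) : Blk F (Fin k → F) c :=
  h.equiv (LinearEquiv.ofFinrankEq _ _ (by simp [hk]))

lemma Blk.add [Fintype F] {k l : ℕ} {c d : ℝ} (h : Blk F (Fin k → F) c) (h' : Blk F (Fin l → F) d) :
    Blk F (Fin (k + l) → F) (c * (Fintype.card F : ℝ) ^ l + d * (Fintype.card F : ℝ) ^ k) := by
  classical
  have := (h.prod h').of_finrank (k := k + l) (by simp)
  simpa using this

lemma blk_zero : Blk F (Fin 0 → F) 0 :=
  ⟨∅, fun _ b hb => absurd (Subsingleton.elim b 0) hb, by simp⟩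

lemma blk_one : Blk F (Fin 1 → F) 1 := by
  refine ⟨{0}, fun a b hb => ⟨-(a 0) / b 0, ?_⟩, by simp⟩
  have hb0 : b 0 ≠ 0 := fun h => hb (by ext i; rw [Subsingleton.elim i 0]; exact h)
  rw [mem_singleton]
  ext i
  rw [Subsingleton.elim i 0]
  simp only [Pi.add_apply, Pi.smul_apply, smul_eq_mul, Pi.zero_apply]
  field_simp
  ring

/-- iterate a block of dimension `n` and cost `c q^(n-1)`, then fill up with coordinates -/
lemma blk_iter [Fintype F] {n : ℕ} {c : ℝ}
    (h : Blk F (Fin n → F) (c * (Fintype.card F : ℝ) ^ n / Fintype.card F)) (j i : ℕ) :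
    Blk F (Fin (n * j + i) → F)
      ((c * j + i) * (Fintype.card F : ℝ) ^ (n * j + i) / Fintype.card F) := by
  have hq : (Fintype.card F : ℝ) ≠ 0 := by positivity
  induction i with
  | zero =>
    induction j with
    | zero => simpa using blk_zero
    | succ j ih =>
      have := ih.add h
      rw [show n * (j + 1) + 0 = n * j + 0 + n by ring]
      refine this.mono (le_of_eq ?_)
      push_cast
      field_simp
      ring
  | succ i ih =>
    have := ih.add blk_one
    rw [show n * j + (i + 1) = n * j + i + 1 by ring]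
    refine this.mono (le_of_eq ?_)
    push_cast
    field_simp
    ring

end Pool.Agent.P.MP_636dfe_co
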