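import Pool.Agent.P.MP_636dfe_co.Norm

set_option autoImplicit false

open Finset Polynomial

namespace Pool.Agent.P.MP_636dfe_co

/-- greedy weighted hitting sets -/
lemma hit {Ω I : Type*} [Fintype Ω] [Nonempty Ω] [DecidableEq Ω] (S : I → Finset Ω) (w : Ω → ℝ)
    (hw : ∀ x, 0 ≤ w x) (θ : ℝ) (hθ : 0 ≤ θ) (M : ℕ) : ∀ J : Finset I,
    (∀ i ∈ J, ((Fintype.card Ω : ℝ) - (S i).card) ≤ θ * Fintype.card Ω) →
    ∃ A : Finset Ω, ∑ x ∈ A, w x + ((J.filter fun i => Disjoint A (S i)).card : ℝ)
      ≤ M * (∑ x, w x) / Fintype.card Ω + J.card * θ ^ M := by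
  classical
  have hN : (0 : ℝ) < Fintype.card Ω := by exact_mod_cast Fintype.card_pos
  induction M with
  | zero =>
    intro J _
    refine ⟨∅, ?_⟩
    simp
  | succ M ih =>
    intro J hJ
    have hsum : ∑ ω : Ω, ((J.filter fun i => ω ∉ S i).card : ℝ)
        = ∑ i ∈ J, ((Fintype.card Ω : ℝ) - (S i).card) := by
      simp only [card_filter, Nat.cast_sum]
      rw [sum_comm]
      refine sum_congr rfl fun i _ => ?_
      have h1 : (univ.filter fun ω => ω ∉ S i) = (S i)ᶜ := by ext; simp
      have h2 := card_filter (fun ω => ω ∉ S i) (univ : Finset Ω)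
      rw [h1, card_compl] at h2
      rw [← Nat.cast_sum, ← h2, Nat.cast_sub (card_le_univ _)]
    have hsum2 : ∑ i ∈ J, ((Fintype.card Ω : ℝ) - (S i).card) ≤ J.card * (θ * Fintype.card Ω) := by
      have := sum_le_card_nsmul J _ _ hJ
      simpa using this
    obtain ⟨ω, -, hω⟩ : ∃ ω ∈ (univ : Finset Ω), w ω + ((J.filter fun i => ω ∉ S i).card : ℝ) * θ ^ M
        ≤ (∑ x, w x) / Fintype.card Ω + J.card * θ ^ (M + 1) := by
      apply exists_le_of_sum_le univ_nonempty
      rw [sum_add_distrib, ← sum_mul, hsum, sum_const, card_univ, nsmul_eq_mul]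
      have := mul_le_mul_of_nonneg_right hsum2 (pow_nonneg hθ M)
      have e : (Fintype.card Ω : ℝ) * ((∑ x, w x) / Fintype.card Ω + J.card * θ ^ (M + 1))
          = ∑ x, w x + J.card * (θ * Fintype.card Ω) * θ ^ M := by
        field_simp
        ring
      rw [e]
      linarith
    obtain ⟨A, hA⟩ := ih (J.filter fun i => ω ∉ S i) (fun i hi => hJ i (mem_filter.1 hi).1)
    refine ⟨insert ω A, ?_⟩
    have h1 : ∑ x ∈ insert ω A, w x ≤ w ω + ∑ x ∈ A, w x := by
      by_cases h : ω ∈ A
      · rw [insert_eq_of_mem h]; linarith [hw ω]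
      · rw [sum_insert h]
    have h2 : ((J.filter fun i => Disjoint (insert ω A) (S i)).card : ℝ)
        ≤ ((J.filter fun i => ω ∉ S i).filter fun i => Disjoint A (S i)).card := by
      refine Nat.cast_le.2 (card_le_card fun i hi => ?_)
      obtain ⟨h3, h4⟩ := mem_filter.1 hi
      rw [disjoint_insert_left] at h4
      exact mem_filter.2 ⟨mem_filter.2 ⟨h3, h4.1⟩, h4.2⟩
    have e : ((M + 1 : ℕ) : ℝ) * (∑ x, w x) / Fintype.card Ω
        = M * (∑ x, w x) / Fintype.card Ω + (∑ x, w x) / Fintype.card Ω := by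
      push_cast; ring
    rw [e]
    linarith

variable {F : Type*} [Field F] [Fintype F]

/-- a polynomial curve has at least as many points as there are elements below `q`
in the semigroup of its degrees -/
lemma image_large {ι : Type*} [Fintype ι] [DecidableEq ι] [DecidableEq F] (f : ι → F[X])
    (hf : ∀ e, f e ≠ 0) (G : Finset ℕ)
    (hG : ∀ n ∈ G, n < Fintype.card F ∧ ∃ a : ι → ℕ, ∑ e, a e * (f e).natDegree = n) :
    G.card ≤ (univ.image fun τ : F => fun e => (f e).eval τ).card := by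
  have hG' : ∀ n : G, ∃ a : ι → ℕ, ∑ e, a e * (f e).natDegree = n := fun n => (hG n n.2).2
  choose a ha using hG'
  set Y := univ.image fun τ : F => fun e => (f e).eval τ with hY
  let g : G → F[X] := fun n => ∏ e, f e ^ a n e
  have hg0 : ∀ n, g n ≠ 0 := fun n => prod_ne_zero_iff.2 fun e _ => pow_ne_zero _ (hf e)
  have hgd : ∀ n, (g n).natDegree = n := fun n => by
    rw [natDegree_prod _ _ (fun e _ => pow_ne_zero _ (hf e)), ← ha n]
    exact sum_congr rfl fun e _ => natDegree_pow _ _
  let L : (G → F) →ₗ[F] (Y → F) :=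
    { toFun := fun c y => ∑ n, c n * ∏ e, (y.1 e) ^ a n e
      map_add' := fun c c' => by ext y; simp [add_mul, sum_add_distrib]
      map_smul' := fun r c => by ext y; simp [mul_sum, mul_assoc] }
  have hL : Function.Injective L := by
    rw [injective_iff_map_eq_zero]
    intro c hc
    by_contra hne
    have hne' : (univ.filter fun n : G => c n ≠ 0).Nonempty := by
      by_contra h
      rw [not_nonempty_iff_eq_empty, filter_eq_empty_iff] at h
      exact hne (funext fun n => not_not.1 (h (mem_univ n)))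
    obtain ⟨n0, hn0, hmax⟩ := exists_max_image _ (fun n : G => (n : ℕ)) hne'
    have hn0' : c n0 ≠ 0 := (mem_filter.1 hn0).2
    have hz : ∑ n, C (c n) * g n = 0 := by
      apply eq_zero_of_natDegree_lt_card_of_eval_eq_zero _ (Function.injective_id (α := F))
      · intro τ
        have := congrFun hc ⟨fun e => (f e).eval τ, mem_image.2 ⟨τ, mem_univ _, rfl⟩⟩
        simp only [L, LinearMap.coe_mk, AddHom.coe_mk, Pi.zero_apply] at this
        rw [← this, eval_finsetSum]
        refine sum_congr rfl fun n _ => ?_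
        simp [g, eval_prod]
      · have : (∑ n, C (c n) * g n).natDegree ≤ Fintype.card F - 1 := by
          refine natDegree_sum_le_of_forall_le _ _ fun n _ => ?_
          refine (natDegree_C_mul_le _ _).trans ?_
          rw [hgd]
          have := (hG n n.2).1
          omega
        have h2 : 0 < Fintype.card F := Fintype.card_pos
        omega
    have := congrArg (fun u : F[X] => u.coeff n0) hz
    simp only [finsetSum_coeff, coeff_C_mul, coeff_zero] at this
    rw [sum_eq_single n0] at this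
    · rcases mul_eq_zero.1 this with h | h
      · exact hn0' h
      · rw [← hgd n0] at h
        exact hg0 n0 (leadingCoeff_eq_zero.1 h)
    · intro n _ hn
      by_cases h : c n = 0
      · rw [h, zero_mul]
      · have h1 := hmax n (mem_filter.2 ⟨mem_univ _, h⟩)
        have h2 : (n : ℕ) ≠ n0 := fun h => hn (Subtype.ext h)
        rw [coeff_eq_zero_of_natDegree_lt (by rw [hgd]; omega), mul_zero]
    · simp
  have := LinearMap.finrank_le_finrank_of_injective hL
  simpa using this

/-- the semigroup generated by `d` and the `d + B^i` contains all large numbers -/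
lemma semigroup_rep (s B t d n : ℕ) (hd : 1 ≤ d) (hdt : d ≤ t) (hB : t ≤ B ^ s)
    (hn : s * (B - 1) * t ≤ n) :
    ∃ a : Option (Fin s) → ℕ,
      ∑ e, a e * (d + (e.elim 0 fun i => min (B ^ (i : ℕ)) t)) = n := by
  have hr : n % d < B ^ s := lt_of_lt_of_le (Nat.mod_lt _ hd) (hdt.trans hB)
  let r := finFunctionFinEquiv.symm ⟨n % d, hr⟩
  have h1 : ∑ i, (r i : ℕ) * B ^ (i : ℕ) = n % d := by
    rw [← finFunctionFinEquiv_apply]
    simp [r]
  have h2 : ∀ i, (r i : ℕ) * min (B ^ (i : ℕ)) t = r i * B ^ (i : ℕ) := by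
    intro i
    rcases le_total (B ^ (i : ℕ)) t with h | h
    · rw [min_eq_left h]
    · have h3 : (r i : ℕ) * B ^ (i : ℕ) ≤ n % d := by
        rw [← h1]
        exact single_le_sum (f := fun i => (r i : ℕ) * B ^ (i : ℕ)) (fun _ _ => Nat.zero_le _)
          (mem_univ i)
      have h4 : n % d < d := Nat.mod_lt _ hd
      have h5 : (r i : ℕ) = 0 := by
        by_contra h6
        have : B ^ (i : ℕ) ≤ (r i : ℕ) * B ^ (i : ℕ) := Nat.le_mul_of_pos_left _ (by omega)
        omega
      rw [h5, zero_mul, zero_mul]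
  have h3 : ∑ i, (r i : ℕ) ≤ s * (B - 1) := by
    have := sum_le_card_nsmul univ (fun i => (r i : ℕ)) (B - 1)
      (fun i _ => by have := (r i).2; omega)
    simpa using this
  have h4 : s * (B - 1) ≤ n / d := by
    rw [Nat.le_div_iff_mul_le hd]
    exact (Nat.mul_le_mul_left _ hdt).trans hn
  refine ⟨fun e => e.elim (n / d - ∑ i, (r i : ℕ)) fun i => r i, ?_⟩
  rw [Fintype.sum_option]
  simp only [Option.elim, add_zero, mul_add, sum_add_distrib, h2, h1, ← sum_mul]
  have h5 : ∑ i, (r i : ℕ) ≤ n / d := h3.trans h4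
  have h6 := Nat.div_add_mod n d
  rw [← add_assoc, ← add_mul, Nat.sub_add_cancel h5, mul_comm]
  exact h6

theorem blk_sqrt (s t k : ℕ) (hs : 1 ≤ s) (hk : 2 * k ≤ t * (t + 1))
    (hq : (2 * s * t) ^ s * t ≤ Fintype.card F ^ s) :
    ∃ B : Finset (Fin k → F), (∀ a b : Fin k → F, b ≠ 0 → ∃ τ : F, a + τ • b ∈ B) ∧
      (B.card : ℝ) ≤ 5 * (s + 1) * (2 * t + 1) * Real.log (Fintype.card F)
        * (Fintype.card F : ℝ) ^ k / Fintype.card F := by
  classical
  set q := Fintype.card F with hqdef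
  have hq2 : 2 ≤ q := Fintype.one_lt_card
  have hqR : (2 : ℝ) ≤ q := by exact_mod_cast hq2
  have hlog : Real.log 2 ≤ Real.log q := Real.log_le_log (by norm_num) hqR
  have hl2 := Real.log_two_gt_d9
  rcases Nat.eq_zero_or_pos t with rfl | ht
  · have hk0 : k = 0 := by omega
    subst hk0
    refine ⟨∅, fun _ b hb => absurd (Subsingleton.elim b 0) hb, ?_⟩
    have : 0 ≤ Real.log q := by linarith
    simp only [card_empty, Nat.cast_zero]
    positivity
  obtain ⟨P, hP⟩ := exists_clock (F := F) k t hk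
  set B := q / (2 * s * t) + 1 with hBdef
  have hst : 0 < 2 * s * t := by positivity
  have hB : t ≤ B ^ s := by
    have h1 : q < 2 * s * t * B := Nat.lt_mul_div_succ q hst
    have h2 : q ^ s < (2 * s * t * B) ^ s := Nat.pow_lt_pow_left h1 (by omega)
    rw [mul_pow] at h2
    exact (Nat.lt_of_mul_lt_mul_left (hq.trans_lt h2)).le
  have hB2 : 2 * (s * (B - 1) * t) ≤ q := by
    have := Nat.mul_div_le q (2 * s * t)
    rw [hBdef, Nat.add_sub_cancel]
    calc 2 * (s * (q / (2 * s * t)) * t) = 2 * s * t * (q / (2 * s * t)) := by ring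
      _ ≤ q := this
  have h2t : 2 * t ≤ q := by
    have h1 : (2 * s * t) ^ s ≤ q ^ s := le_trans (Nat.le_mul_of_pos_right _ ht) hq
    have h2 := (Nat.pow_le_pow_iff_left (by omega)).1 h1
    nlinarith
  let ε : Option (Fin s) → ℕ := fun e => e.elim 0 fun i => min (B ^ (i : ℕ)) t
  have hε : ∀ e, ε e ≤ t := by
    rintro (_ | i)
    · exact Nat.zero_le _
    · exact min_le_right _ _
  let Ω := Option (Fin s) → F
  let I := Option (Fin s) → Fin (2 * t + 1) → F
  let Φ : (Fin k → F) → Ω := fun x e => P (ε e) x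
  let S : I → Finset Ω := fun c => univ.image fun τ : F => fun e => ∑ j, c e j * τ ^ (j : ℕ)
  let J : Finset I := univ.filter fun c => q ≤ 2 * (S c).card
  have hΩ : (Fintype.card Ω : ℝ) = (q : ℝ) ^ (s + 1) := by simp [Ω, hqdef]
  have hI : (Fintype.card I : ℝ) = (q : ℝ) ^ ((s + 1) * (2 * t + 1)) := by
    simp only [I, Fintype.card_fun, Fintype.card_fin, Fintype.card_option, ← hqdef]
    push_cast
    rw [← pow_mul, mul_comm]
  set E : ℕ := (s + 1) * (2 * t + 1) with hE
  have hq0 : (0 : ℝ) < q := by linarith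
  have hqs : (0 : ℝ) < (q : ℝ) ^ s := by positivity
  set x : ℝ := 2 * (q : ℝ) ^ s * (E * Real.log q + Real.log 2) with hx
  have hx0 : 0 ≤ x := by
    have : 0 ≤ Real.log q := by linarith
    have : 0 ≤ Real.log 2 := by linarith
    positivity
  set M := ⌊x⌋₊ + 1 with hM
  have hM1 : x < M := by rw [hM]; push_cast; exact Nat.lt_floor_add_one x
  have hM2 : (M : ℝ) ≤ x + 1 := by rw [hM]; push_cast; linarith [Nat.floor_le hx0]
  have hM0 : (0 : ℝ) < M := by linarith
  set lam : ℝ := (q : ℝ) ^ (s + 1) / (2 * M * (q : ℝ) ^ k) with hlam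
  have hlam0 : 0 < lam := by positivity
  set θ : ℝ := 1 - 1 / (2 * (q : ℝ) ^ s) with hθ
  have hqs1 : (1 : ℝ) ≤ (q : ℝ) ^ s := one_le_pow₀ (by linarith)
  have hθ0 : 0 ≤ θ := by
    rw [hθ, sub_nonneg, div_le_one (by positivity)]
    linarith
  obtain ⟨A, hA⟩ := hit S (fun y => lam * ((univ.filter fun x => Φ x = y).card : ℝ))
    (fun y => by positivity) θ hθ0 M J (by
      intro c hc
      have h1 : (q : ℝ) ≤ 2 * (S c).card := by exact_mod_cast (mem_filter.1 hc).2
      rw [hΩ, hθ, sub_mul, one_mul, pow_succ]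
      have : 1 / (2 * (q : ℝ) ^ s) * ((q : ℝ) ^ s * q) = q / 2 := by field_simp
      rw [this]
      linarith)
  have hfib : ∀ A : Finset Ω, ∑ y ∈ A, lam * ((univ.filter fun x => Φ x = y).card : ℝ)
      = lam * ((univ.filter fun x => Φ x ∈ A).card : ℝ) := by
    intro A
    rw [← mul_sum, ← Nat.cast_sum, sum_card_fiberwise_eq_card_filter]
  rw [hfib, hfib] at hA
  have hall : ((univ.filter fun x => Φ x ∈ (univ : Finset Ω)).card : ℝ) = (q : ℝ) ^ k := by
    simp [hqdef]
  rw [hall, hΩ] at hA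
  have e1 : (M : ℝ) * (lam * (q : ℝ) ^ k) / (q : ℝ) ^ (s + 1) = 1 / 2 := by
    rw [hlam]; field_simp
  have e2 : (J.card : ℝ) * θ ^ M < 1 / 2 := by
    have h1 : (J.card : ℝ) ≤ (q : ℝ) ^ E := by
      rw [← hI]; exact_mod_cast card_le_univ J
    have h2 : θ ≤ Real.exp (-(1 / (2 * (q : ℝ) ^ s))) := by
      have := Real.add_one_le_exp (-(1 / (2 * (q : ℝ) ^ s)))
      rw [hθ]; linarith
    have h3 : θ ^ M ≤ Real.exp (-(M / (2 * (q : ℝ) ^ s))) := by
      refine (pow_le_pow_left₀ hθ0 h2 M).trans (le_of_eq ?_)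
      rw [← Real.exp_nat_mul]; congr 1; ring
    have h4 : Real.exp (-(M / (2 * (q : ℝ) ^ s))) < Real.exp (-(E * Real.log q + Real.log 2)) := by
      rw [Real.exp_lt_exp, neg_lt_neg_iff, lt_div_iff₀ (by positivity)]
      linarith
    have h5 : Real.exp (-(E * Real.log q + Real.log 2)) * (q : ℝ) ^ E = 1 / 2 := by
      rw [Real.exp_neg, Real.exp_add, Real.exp_nat_mul, Real.exp_log hq0,
        Real.exp_log (by norm_num)]
      field_simp
    have h6 : (0 : ℝ) < (q : ℝ) ^ E := by positivity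
    calc (J.card : ℝ) * θ ^ M ≤ (q : ℝ) ^ E * θ ^ M :=
          mul_le_mul_of_nonneg_right h1 (pow_nonneg hθ0 M)
      _ < (q : ℝ) ^ E * Real.exp (-(E * Real.log q + Real.log 2)) :=
          mul_lt_mul_of_pos_left (h3.trans_lt h4) h6
      _ = 1 / 2 := by rw [mul_comm, h5]
  rw [e1] at hA
  have hc0 : (0 : ℝ) ≤ lam * ((univ.filter fun x => Φ x ∈ A).card : ℝ) := by positivity
  have hc1 : (0 : ℝ) ≤ ((J.filter fun i => Disjoint A (S i)).card : ℝ) := by positivity
  have hmiss : (J.filter fun i => Disjoint A (S i)).card = 0 := by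
    have : ((J.filter fun i => Disjoint A (S i)).card : ℝ) < 1 := by linarith
    have : (J.filter fun i => Disjoint A (S i)).card < 1 := by exact_mod_cast this
    omega
  refine ⟨univ.filter fun x => Φ x ∈ A, fun a b hb => ?_, ?_⟩
  · obtain ⟨d, hd1, hdt, hf⟩ := hP a b hb
    choose f hf1 hf2 using hf
    let c : I := fun e j => (f (ε e)).coeff j
    have hSc : S c = univ.image fun τ : F => fun e => (f (ε e)).eval τ := by
      refine image_congr fun τ _ => funext fun e => ?_
      have h1 : (f (ε e)).natDegree < 2 * t + 1 := by have := hε e; rw [hf1]; omega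
      rw [eval_eq_sum_range' h1, ← Fin.sum_univ_eq_sum_range (fun j => (f (ε e)).coeff j * τ ^ j)]
    have hcJ : c ∈ J := by
      refine mem_filter.2 ⟨mem_univ _, ?_⟩
      have := image_large (fun e => f (ε e))
        (fun e h => by have := hf1 (ε e); rw [h, natDegree_zero] at this; omega)
        (Ico (s * (B - 1) * t) q) (by
          intro n hn
          obtain ⟨h1, h2⟩ := mem_Ico.1 hn
          refine ⟨h2, ?_⟩
          simp only [hf1]
          exact semigroup_rep s B t d n hd1 hdt hB h1)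
      rw [Nat.card_Ico, ← hSc] at this
      omega
    have hnd : ¬ Disjoint A (S c) := fun h => by
      have : c ∈ J.filter fun i => Disjoint A (S i) := mem_filter.2 ⟨hcJ, h⟩
      rw [card_eq_zero.1 hmiss] at this
      simp at this
    obtain ⟨y, hyA, hyS⟩ := not_disjoint_iff.1 hnd
    rw [hSc] at hyS
    obtain ⟨τ, -, rfl⟩ := mem_image.1 hyS
    refine ⟨τ, mem_filter.2 ⟨mem_univ _, ?_⟩⟩
    have : Φ (a + τ • b) = fun e => (f (ε e)).eval τ := funext fun e => (hf2 _ _).symm
    rw [this]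
    exact hyA
  · set N : ℝ := ((univ.filter fun x => Φ x ∈ A).card : ℝ)
    have h1 : lam * N ≤ 1 := by linarith
    have h2 : N ≤ 2 * M * (q : ℝ) ^ k / (q : ℝ) ^ (s + 1) := by
      rw [hlam, div_mul_eq_mul_div, div_le_one (by positivity)] at h1
      rw [le_div_iff₀ (by positivity)]
      linarith
    have hE6 : (6 : ℝ) ≤ E := by
      have : 6 ≤ E := by rw [hE]; nlinarith
      exact_mod_cast this
    have hqs2 : (2 : ℝ) ≤ (q : ℝ) ^ s := hqR.trans (le_self_pow₀ (by linarith) (by omega))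
    have h3 : 2 * (M : ℝ) ≤ 5 * E * Real.log q * (q : ℝ) ^ s := by
      have hl2' := Real.log_two_lt_d9
      have h4 : 6 * Real.log 2 ≤ E * Real.log q :=
        mul_le_mul hE6 hlog (by linarith) (by linarith)
      have h5 : (4 * Real.log 2 + 1) * (q : ℝ) ^ s ≤ E * Real.log q * (q : ℝ) ^ s :=
        mul_le_mul_of_nonneg_right (by linarith only [h4, hl2, hl2']) hqs.le
      linarith only [h5, hx, hM2, hqs2]
    refine h2.trans ?_
    have e3 : (5 : ℝ) * (s + 1) * (2 * t + 1) = 5 * E := by rw [hE]; push_cast; ring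
    rw [e3, pow_succ, div_le_div_iff₀ (by positivity) hq0]
    have h6 : (0 : ℝ) ≤ (q : ℝ) ^ k * q := by positivity
    linarith only [mul_le_mul_of_nonneg_right h3 h6]

end Pool.Agent.P.MP_636dfe_co
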