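import Pool.Agent.P.MP_636dfe_co.Basic

set_option autoImplicit false

open Finset Polynomial

namespace Pool.Agent.P.MP_636dfe_co

/-- the determinant with rows `lam i j * prod_{l < i} (X - e l j)` has small degree -/
lemma det_natDegree_le {F : Type*} [Field F] {h : ℕ} (lam e : Fin h → Fin h → F) :
    (Matrix.of fun i j : Fin h =>
      C (lam i j) * ∏ l ∈ univ.filter (fun l : Fin h => l < i), (X - C (e l j))).det.natDegree
      ≤ ∑ i : Fin h, (i : ℕ) := by
  classical
  rw [Matrix.det_apply]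
  refine natDegree_sum_le_of_forall_le _ _ fun s _ => ?_
  refine (natDegree_smul_le _ _).trans ((natDegree_prod_le _ _).trans ?_)
  rw [← Equiv.sum_comp s (fun i : Fin h => (i : ℕ))]
  refine sum_le_sum fun j _ => ?_
  rw [Matrix.of_apply]
  refine (natDegree_C_mul_le _ _).trans ((natDegree_prod_le _ _).trans ?_)
  refine (sum_le_sum fun l _ => (natDegree_X_sub_C_le (e l j))).trans ?_
  rw [sum_const, smul_eq_mul, mul_one]
  have : univ.filter (fun l : Fin h => l < s j) = Iio (s j) := by ext l; simp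
  rw [this, Fin.card_Iio]

lemma det_ne_zero {F : Type*} [Field F] {h : ℕ} (lam e : Fin h → Fin h → F) (c : F)
    (hlam : ∀ i, lam i i ≠ 0) (he : ∀ j, e j j = c) (he' : ∀ l i, l < i → e l i ≠ c) :
    (Matrix.of fun i j : Fin h =>
      C (lam i j) * ∏ l ∈ univ.filter (fun l : Fin h => l < i), (X - C (e l j))).det ≠ 0 := by
  classical
  intro h0
  have h1 := congrArg (evalRingHom c) h0
  rw [RingHom.map_det, map_zero, Matrix.det_of_isUpperTriangular] at h1
  · obtain ⟨i, -, hi⟩ := prod_eq_zero_iff.1 h1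
    simp only [RingHom.mapMatrix_apply, Matrix.map_apply, Matrix.of_apply, coe_evalRingHom,
      eval_mul, eval_C, eval_prod, eval_sub, eval_X, mul_eq_zero, prod_eq_zero_iff, mem_filter,
      mem_univ, true_and] at hi
    rcases hi with hi | ⟨l, hl, hi⟩
    · exact hlam i hi
    · exact he' l i hl (sub_eq_zero.1 hi).symm
  · intro i j hij
    simp only [RingHom.mapMatrix_apply, Matrix.map_apply, Matrix.of_apply, coe_evalRingHom,
      eval_mul, eval_C, eval_prod, eval_sub, eval_X, mul_eq_zero, prod_eq_zero_iff, mem_filter,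
      mem_univ, true_and]
    exact Or.inr ⟨j, hij, by rw [he, sub_self]⟩

/-- an element outside the base field of an extension of prime degree is not a root of a
nonzero polynomial of smaller degree -/
lemma aeval_ne_zero_of_prime {F L : Type*} [Field F] [Field L] [Algebra F L]
    [Module.Finite F L] (hp : (Module.finrank F L).Prime) (x : L)
    (hx : x ∉ Set.range (algebraMap F L)) (f : F[X]) (hf : f ≠ 0)
    (hd : f.natDegree < Module.finrank F L) : aeval x f ≠ 0 := by
  intro h0
  have hint : IsIntegral F x := Algebra.IsIntegral.isIntegral x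
  have h1 : (minpoly F x).natDegree ∣ Module.finrank F L := minpoly.degree_dvd hint
  have h2 : (minpoly F x).natDegree ≤ f.natDegree :=
    natDegree_le_of_dvd (minpoly.dvd F x h0) hf
  rcases (Nat.dvd_prime hp).1 h1 with h3 | h3
  · exact hx (by simpa using minpoly.natDegree_eq_one_iff.1 h3)
  · omega

/-- the relative trace polynomial map -/
def trm {L : Type*} [Field L] (R h : ℕ) (x : L) : L := ∑ j : Fin h, x ^ (R ^ (j : ℕ))

lemma card_fiber_trm {L : Type*} [Field L] [Fintype L] [DecidableEq L] (R h : ℕ) (hR : 2 ≤ R)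
    (hh : 1 ≤ h) (y : L) :
    (univ.filter fun x : L => trm R h x = y).card ≤ R ^ (h - 1) := by
  classical
  obtain ⟨g, rfl⟩ : ∃ g, h = g + 1 := ⟨h - 1, by omega⟩
  let f : L[X] := X ^ (R ^ g) + (∑ j : Fin g, X ^ (R ^ (j : ℕ)) - C y)
  have hpos : 0 < R ^ g := by positivity
  have hlt : (∑ j : Fin g, (X : L[X]) ^ (R ^ (j : ℕ)) - C y).degree < (R ^ g : ℕ) := by
    refine lt_of_le_of_lt (degree_sub_le _ _) (max_lt ?_ ?_)
    · refine lt_of_le_of_lt (degree_sum_le _ _) ?_
      refine (Finset.sup_lt_iff (WithBot.bot_lt_coe _)).2 fun j _ => ?_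
      rw [degree_X_pow]
      exact_mod_cast Nat.pow_lt_pow_right (by omega) j.2
    · exact lt_of_le_of_lt degree_C_le (by exact_mod_cast hpos)
  have hmon : f.Monic := monic_X_pow_add hlt
  have hdeg : f.natDegree = R ^ g := by
    apply natDegree_eq_of_degree_eq_some
    rw [degree_add_eq_left_of_degree_lt (by rwa [degree_X_pow]), degree_X_pow]
  have hsub : (univ.filter fun x : L => trm R (g + 1) x = y) ⊆ f.roots.toFinset := by
    intro x hx
    rw [mem_filter] at hx
    rw [Multiset.mem_toFinset, mem_roots hmon.ne_zero, IsRoot.def]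
    have := hx.2
    rw [trm, Fin.sum_univ_castSucc] at this
    simp only [Fin.val_castSucc, Fin.val_last] at this
    simp only [f, eval_add, eval_pow, eval_X, eval_sub, eval_finsetSum, eval_C]
    linear_combination this
  calc _ ≤ f.roots.toFinset.card := card_le_card hsub
    _ ≤ f.roots.card := Multiset.toFinset_card_le _
    _ ≤ f.natDegree := card_roots' f
    _ = _ := by simpa using hdeg

lemma card_fixed {L : Type*} [Field L] [Fintype L] [DecidableEq L] (R : ℕ) (hR : 2 ≤ R) :
    (univ.filter fun x : L => x ^ R = x).card ≤ R := by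
  classical
  let f : L[X] := X ^ R - X
  have hf : f ≠ 0 := FiniteField.X_pow_card_sub_X_ne_zero L (by omega)
  have hdeg : f.natDegree = R := FiniteField.X_pow_card_sub_X_natDegree_eq L (by omega)
  have hsub : (univ.filter fun x : L => x ^ R = x) ⊆ f.roots.toFinset := by
    intro x hx
    rw [mem_filter] at hx
    rw [Multiset.mem_toFinset, mem_roots hf, IsRoot.def]
    simp [f, hx.2]
  calc _ ≤ f.roots.toFinset.card := card_le_card hsub
    _ ≤ f.roots.card := Multiset.toFinset_card_le _
    _ ≤ f.natDegree := card_roots' f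
    _ = _ := hdeg

section
variable {L : Type*} [Field L] (p : ℕ) [Fact p.Prime] [CharP L p]

lemma pow_add' (m j : ℕ) (x y : L) :
    (x + y) ^ ((p ^ m) ^ j) = x ^ ((p ^ m) ^ j) + y ^ ((p ^ m) ^ j) := by
  rw [← pow_mul, add_pow_char_pow]

lemma pow_sub' (m j : ℕ) (x y : L) :
    (x - y) ^ ((p ^ m) ^ j) = x ^ ((p ^ m) ^ j) - y ^ ((p ^ m) ^ j) := by
  rw [← pow_mul, sub_pow_char_pow]

lemma trm_sub (m h : ℕ) (x y : L) : trm (p ^ m) h (x - y) = trm (p ^ m) h x - trm (p ^ m) h y := by
  simp only [trm, pow_sub', sum_sub_distrib]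

omit [Fact p.Prime] [CharP L p] in
lemma pow_fix (R j : ℕ) (x : L) (hx : x ^ R = x) : x ^ (R ^ j) = x := by
  induction j with
  | zero => simp
  | succ j ih => rw [pow_succ, pow_mul, ih, hx]

omit [Fact p.Prime] [CharP L p] in
lemma trm_smul (R h : ℕ) (k x : L) (hk : k ^ R = k) : trm R h (k * x) = k * trm R h x := by
  simp only [trm, mul_pow, pow_fix R _ k hk, mul_sum]

lemma trm_fixed (m h : ℕ) (x : L) (hx : x ^ ((p ^ m) ^ h) = x) :
    (trm (p ^ m) h x) ^ (p ^ m) = trm (p ^ m) h x := by
  rw [trm, sum_pow_char_pow]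
  simp only [← pow_mul x, ← pow_succ]
  have h1 := Fin.sum_univ_succ (fun j : Fin (h + 1) => x ^ ((p ^ m) ^ (j : ℕ)))
  have h2 := Fin.sum_univ_castSucc (fun j : Fin (h + 1) => x ^ ((p ^ m) ^ (j : ℕ)))
  simp only [Fin.val_zero, pow_zero, pow_one, Fin.val_succ] at h1
  simp only [Fin.val_castSucc, Fin.val_last, hx] at h2
  linear_combination h2 - h1

end

lemma exists_gen {F : Type*} [Field F] [Fintype F] (r h : ℕ) (hr : 2 ≤ r)
    (hF : Fintype.card F = r ^ h) : ∃ c : F, ∀ d, 0 < d → d < h → c ^ (r ^ d) ≠ c := by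
  classical
  obtain ⟨g, hg⟩ := IsCyclic.exists_generator (α := Fˣ)
  have ho : orderOf g = r ^ h - 1 := by
    rw [orderOf_eq_card_of_forall_mem_zpowers hg, Nat.card_eq_fintype_card, Fintype.card_units, hF]
  refine ⟨g, fun d hd hdh hc => ?_⟩
  have h1 : 1 < r ^ d := Nat.one_lt_pow hd.ne' (by omega)
  have h2 : r ^ d < r ^ h := Nat.pow_lt_pow_right (by omega) hdh
  have h3 : g ^ (r ^ d - 1) = 1 := by
    apply Units.ext
    have h4 : (g : F) ^ (r ^ d - 1) * g = 1 * g := by
      rw [← pow_succ, Nat.sub_add_cancel h1.le, hc, one_mul]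
    simpa using mul_right_cancel₀ g.ne_zero h4
  have h5 := Nat.le_of_dvd (by omega) (orderOf_dvd_of_pow_eq_one h3)
  omega

end Pool.Agent.P.MP_636dfe_co
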