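import Pool.Agent.P.MP_636dfe_co.Lin

set_option autoImplicit false

open Finset Polynomial

namespace Pool.Agent.P.MP_636dfe_co

/-- multipliers `a i` such that no nonzero `b` has all `lam i * a i * b` of trace zero -/
lemma exists_mult {F L : Type*} [Field F] [Fintype F] [Field L] [Fintype L] [Algebra F L]
    (p : ℕ) [Fact p.Prime] [CharP L p] (n h : ℕ) (hn : 1 ≤ n) (h2 : 2 ≤ h) (h4 : h ≤ 4)
    (hF : Fintype.card F = (p ^ n) ^ h) (hL : Module.finrank F L = 2 * h - 1) :
    ∃ a : Fin h → L, (∀ i, a i ≠ 0) ∧ ∀ (lam : Fin h → F) (b : L), (∀ i, lam i ≠ 0) →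
      (∀ i, trm (p ^ (n * (2 * h - 1))) h (a i * algebraMap F L (lam i) * b) = 0) → b = 0 := by
  classical
  have hp := (Fact.out : p.Prime).two_le
  have hr : 2 ≤ p ^ n := le_trans hp (Nat.le_self_pow (by omega) p)
  set R := p ^ (n * (2 * h - 1)) with hRdef
  have hR' : R = (p ^ n) ^ (2 * h - 1) := by rw [hRdef, pow_mul]
  have hR : 2 ≤ R := le_trans hp (Nat.le_self_pow (Nat.mul_ne_zero (by omega) (by omega)) p)
  have hcL : Fintype.card L = R ^ h := by
    rw [Module.card_eq_pow_finrank (K := F) (V := L), hL, hF, hR', ← pow_mul, ← pow_mul,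
      ← pow_mul, ← pow_mul]
    congr 1
    ring
  have hfix : ∀ x : L, x ^ (R ^ h) = x := fun x => by rw [← hcL, FiniteField.pow_card]
  obtain ⟨th, hth1, hth2⟩ : ∃ th : L, th ^ R = th ∧ th ∉ Set.range (algebraMap F L) := by
    by_contra hcon
    push Not at hcon
    have h1 : (univ : Finset L).card ≤ R ^ (h - 1) * (univ.image (trm R h : L → L)).card :=
      card_le_mul_card_image _ _ fun y _ => card_fiber_trm R h hR (by omega) y
    have h3 : univ.image (trm R h : L → L) ⊆ univ.image (algebraMap F L) := by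
      intro y hy
      obtain ⟨x, -, rfl⟩ := mem_image.1 hy
      obtain ⟨z, hz⟩ := hcon _ (trm_fixed p _ h x (hfix x))
      exact mem_image.2 ⟨z, mem_univ _, hz⟩
    have h5 : (univ.image (trm R h : L → L)).card ≤ (p ^ n) ^ h := by
      refine (card_le_card h3).trans (card_image_le.trans ?_)
      rw [card_univ, hF]
    have h6 : (p ^ n) ^ h < R := by
      rw [hR']
      exact Nat.pow_lt_pow_right (by omega) (by omega)
    rw [card_univ, hcL] at h1
    have h7 : R ^ h = R ^ (h - 1) * R := by rw [← pow_succ]; congr 1; omega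
    have h8 : 0 < R ^ (h - 1) := by positivity
    have h9 := Nat.mul_lt_mul_of_pos_left (lt_of_le_of_lt h5 h6) h8
    omega
  obtain ⟨c, hc⟩ := exists_gen (F := F) (p ^ n) h hr hF
  have hcq : ∀ (x : F) (j : ℕ), x ^ ((p ^ n) ^ (h * j)) = x := fun x j => by
    rw [pow_mul (p ^ n), ← hF]
    exact pow_fix _ j x (FiniteField.pow_card x)
  refine ⟨fun i => ∏ l ∈ univ.filter (fun l : Fin h => l < i),
    (th - algebraMap F L (c ^ ((p ^ n) ^ (l : ℕ)))), fun i => ?_, fun lam b hlam hb => ?_⟩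
  · refine prod_ne_zero_iff.2 fun l _ h0 => hth2 ⟨_, (sub_eq_zero.1 h0).symm⟩
  by_contra hb0
  let M : Matrix (Fin h) (Fin h) F[X] := Matrix.of fun i j : Fin h =>
    C (lam i ^ (R ^ (j : ℕ))) * ∏ l ∈ univ.filter (fun l : Fin h => l < i),
      (X - C ((c ^ ((p ^ n) ^ (l : ℕ))) ^ (R ^ (j : ℕ))))
  have hM1 : M.det.natDegree ≤ ∑ i : Fin h, (i : ℕ) :=
    det_natDegree_le (fun i j => lam i ^ (R ^ (j : ℕ)))
      (fun l j => (c ^ ((p ^ n) ^ (l : ℕ))) ^ (R ^ (j : ℕ)))
  have hexp : ∀ l i : ℕ, l ≤ i → (p ^ n) ^ l * R ^ i * (p ^ n) ^ (i - l) = (p ^ n) ^ (h * (2 * i)) := by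
    intro l i hli
    rw [hR', ← pow_mul (p ^ n), ← pow_add, ← pow_add]
    congr 1
    obtain ⟨g, rfl⟩ : ∃ g, h = g + 1 := ⟨h - 1, by omega⟩
    obtain ⟨d, rfl⟩ := Nat.exists_eq_add_of_le hli
    rw [show 2 * (g + 1) - 1 = 2 * g + 1 by omega, Nat.add_sub_cancel_left]
    ring
  have hM2 : M.det ≠ 0 := by
    refine det_ne_zero (fun i j => lam i ^ (R ^ (j : ℕ)))
      (fun l j => (c ^ ((p ^ n) ^ (l : ℕ))) ^ (R ^ (j : ℕ))) c
      (fun i => pow_ne_zero _ (hlam i)) (fun j => ?_) (fun l i hli h0 => ?_)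
    · have := hexp j j le_rfl
      rw [Nat.sub_self, pow_zero, mul_one] at this
      rw [← pow_mul c, this, hcq]
    · have hli' : (l : ℕ) < i := hli
      have h1 := congrArg (fun x : F => x ^ ((p ^ n) ^ ((i : ℕ) - l))) h0
      rw [← pow_mul c, ← pow_mul c, hexp l i hli'.le, hcq] at h1
      exact hc _ (by omega) (by have := i.2; omega) h1.symm
  have hpr : (Module.finrank F L).Prime ∧ ∑ i : Fin h, (i : ℕ) < Module.finrank F L := by
    rw [hL]
    clear M hM1 hM2 hb hlam lam
    interval_cases h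
    · exact ⟨by norm_num, by simp [Fin.sum_univ_succ]⟩
    · exact ⟨by norm_num, by simp [Fin.sum_univ_succ]⟩
    · exact ⟨by norm_num, by simp [Fin.sum_univ_succ]⟩
  apply aeval_ne_zero_of_prime hpr.1 th hth2 _ hM2 (lt_of_le_of_lt hM1 hpr.2)
  rw [AlgHom.map_det, ← Matrix.exists_mulVec_eq_zero_iff]
  refine ⟨fun j => b ^ (R ^ (j : ℕ)), fun h0 => ?_, ?_⟩
  · exact pow_ne_zero _ hb0 (congrFun h0 ⟨0, by omega⟩)
  · ext i
    have := hb i
    rw [trm] at this
    rw [Pi.zero_apply, ← this, Matrix.mulVec, dotProduct]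
    refine sum_congr rfl fun j _ => ?_
    simp only [AlgHom.mapMatrix_apply, Matrix.map_apply, M, Matrix.of_apply, map_mul, map_prod,
      map_sub, aeval_X, aeval_C, map_pow, mul_pow, ← prod_pow, hRdef, pow_sub' p]
    rw [pow_fix _ _ th hth1]
    ring

theorem blk_linear (K F : Type) [Field K] [Fintype K] [Field F] [Fintype F] [Algebra K F]
    (h : ℕ) (hh : Module.finrank K F = h) (h2 : 2 ≤ h) (h4 : h ≤ 4) :
    Blk F (Fin (2 * h - 1) → F) ((h : ℝ) * Fintype.card K / (Fintype.card K - 1)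
      * (Fintype.card F : ℝ) ^ (2 * h - 1) / Fintype.card F) := by
  classical
  obtain ⟨p, hpK⟩ := CharP.exists K
  have : Fact p.Prime := ⟨CharP.char_is_prime K p⟩
  have hpF : CharP F p := charP_of_injective_algebraMap (algebraMap K F).injective p
  obtain ⟨n, -, hn⟩ := FiniteField.card K p
  have hn1 : 1 ≤ (n : ℕ) := n.2
  have hp := (Fact.out : p.Prime).two_le
  have hr : 2 ≤ p ^ (n : ℕ) := le_trans hp (Nat.le_self_pow (by omega) p)
  have hF : Fintype.card F = (p ^ (n : ℕ)) ^ h := by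
    rw [Module.card_eq_pow_finrank (K := K) (V := F), hh, hn]
  have : NeZero (2 * h - 1) := ⟨by omega⟩
  let L := FiniteField.Extension F p (2 * h - 1)
  have hL : Module.finrank F L = 2 * h - 1 := FiniteField.finrank_extension F p _
  have : Fintype L := Fintype.ofFinite L
  have hpL : CharP L p := charP_of_injective_algebraMap (algebraMap F L).injective p
  obtain ⟨a, ha0, ha⟩ := exists_mult (F := F) (L := L) p n h hn1 h2 h4 hF hL
  set R := p ^ ((n : ℕ) * (2 * h - 1)) with hRdef
  have hR' : R = (p ^ (n : ℕ)) ^ (2 * h - 1) := by rw [hRdef, pow_mul]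
  have hR : 2 ≤ R := le_trans hp (Nat.le_self_pow (Nat.mul_ne_zero (by omega) (by omega)) p)
  have hcL : Fintype.card L = R ^ h := by
    rw [Module.card_eq_pow_finrank (K := F) (V := L), hL, hF, hR', ← pow_mul, ← pow_mul,
      ← pow_mul, ← pow_mul]
    congr 1
    ring
  have hfix : ∀ x : L, x ^ (R ^ h) = x := fun x => by rw [← hcL, FiniteField.pow_card]
  refine Blk.of_finrank (V := L) hL ?_
  let B : Fin h → Finset L := fun i =>
    univ.filter fun x => ∃ s : F, s ≠ 0 ∧ trm R h (a i * algebraMap F L s * x) = 0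
  refine ⟨univ.biUnion B, fun x b hb => ?_, ?_⟩
  · obtain ⟨i, hi⟩ : ∃ i, ∀ s : F, s ≠ 0 → trm R h (a i * algebraMap F L s * b) ≠ 0 := by
      by_contra hcon
      push Not at hcon
      choose lam hlam using hcon
      exact hb (ha lam b (fun i => (hlam i).1) fun i => (hlam i).2)
    have hcard : (univ.filter fun y : L => y ^ R = y).card < (univ : Finset (F × F)).card := by
      refine lt_of_le_of_lt (card_fixed R hR) ?_
      rw [card_univ, Fintype.card_prod, hF, hR', ← pow_add]
      exact Nat.pow_lt_pow_right (by omega) (by omega)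
    obtain ⟨u, -, v, -, huv, he⟩ := exists_ne_map_eq_of_card_lt_of_maps_to hcard
      (f := fun u : F × F => trm R h (a i * (algebraMap F L u.1 * x + algebraMap F L u.2 * b)))
      (fun u _ => by simpa using trm_fixed p _ h _ (hfix _))
    have h0 : trm R h (a i * (algebraMap F L (u.1 - v.1) * x + algebraMap F L (u.2 - v.2) * b))
        = 0 := by
      rw [← sub_eq_zero.2 he, ← trm_sub p]
      congr 1
      simp only [map_sub]
      ring
    have h1 : u.1 - v.1 ≠ 0 := by
      intro h1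
      have h3 : u.2 - v.2 ≠ 0 := fun h3 => huv (Prod.ext (sub_eq_zero.1 h1) (sub_eq_zero.1 h3))
      refine hi _ h3 ?_
      rw [← h0, h1, map_zero, zero_mul, zero_add, mul_assoc]
    refine ⟨(u.2 - v.2) / (u.1 - v.1), mem_biUnion.2 ⟨i, mem_univ _, mem_filter.2
      ⟨mem_univ _, _, h1, ?_⟩⟩⟩
    rw [← h0]
    congr 1
    have h5 : algebraMap F L (u.1 - v.1) ≠ 0 := (_root_.map_ne_zero _).2 h1
    rw [Algebra.smul_def, map_div₀, mul_assoc, mul_add, ← mul_assoc _ (_ / _),
      mul_div_cancel₀ _ h5]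
  · have hB : ∀ i, (B i).card * (p ^ (n : ℕ) - 1) ≤ ((p ^ (n : ℕ)) ^ h - 1) * R ^ (h - 1) := by
      intro i
      have := card_mul_le_card_mul (s := B i) (t := (univ : Finset F).erase 0)
        (m := p ^ (n : ℕ) - 1) (n := R ^ (h - 1))
        (fun x s => trm R h (a i * algebraMap F L s * x) = 0) ?_ ?_
      · rwa [card_erase_of_mem (mem_univ _), card_univ, hF] at this
      · intro x hx
        obtain ⟨-, s, hs, hsx⟩ := mem_filter.1 hx
        rw [← hn, ← card_univ, ← card_erase_of_mem (mem_univ (0 : K))]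
        refine card_le_card_of_injOn (fun k => algebraMap K F k * s) (fun k hk => ?_) ?_
        · have hk0 : k ≠ 0 := ne_of_mem_erase (mem_coe.1 hk)
          simp only [coe_bipartiteAbove, mem_erase, mem_univ, and_true, Set.mem_ofPred_eq]
          refine ⟨mul_ne_zero ((_root_.map_ne_zero _).2 hk0) hs, ?_⟩
          have hkR : (algebraMap F L (algebraMap K F k)) ^ R = algebraMap F L (algebraMap K F k) := by
            rw [← map_pow, ← map_pow, hR', ← hn, pow_fix _ _ k (FiniteField.pow_card k)]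
          rw [map_mul, show a i * (algebraMap F L (algebraMap K F k) * algebraMap F L s) * x
            = algebraMap F L (algebraMap K F k) * (a i * algebraMap F L s * x) by ring,
            trm_smul _ _ _ _ hkR, hsx, mul_zero]
        · intro k _ k' _ hkk
          exact (algebraMap K F).injective (mul_right_cancel₀ hs hkk)
      · intro s hs
        have hs0 : algebraMap F L s ≠ 0 := (_root_.map_ne_zero _).2 (ne_of_mem_erase hs)
        refine le_trans ?_ (card_fiber_trm (L := L) R h hR (by omega) 0)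
        refine card_le_card_of_injOn (fun x => a i * algebraMap F L s * x) (fun x hx => ?_) ?_
        · simp only [coe_bipartiteBelow, Set.mem_ofPred_eq] at hx
          simpa using hx.2
        · intro x _ y _ hxy
          exact mul_left_cancel₀ (mul_ne_zero (ha0 i) hs0) hxy
    have hr1 : (1 : ℝ) < ((p ^ (n : ℕ) : ℕ) : ℝ) := by exact_mod_cast hr
    have hB' : ∀ i, ((B i).card : ℝ) ≤ (Fintype.card K : ℝ) / (Fintype.card K - 1)
        * (Fintype.card F : ℝ) ^ (2 * h - 1) / Fintype.card F := by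
      intro i
      have h1 := (hB i).trans (Nat.mul_le_mul_right _ (Nat.sub_le _ _))
      have h3 : (p ^ (n : ℕ)) ^ h * R ^ (h - 1) * (p ^ (n : ℕ)) ^ h
          = p ^ (n : ℕ) * ((p ^ (n : ℕ)) ^ h) ^ (2 * h - 1) := by
        rw [hR']
        generalize p ^ (n : ℕ) = r
        obtain ⟨g, rfl⟩ : ∃ g, h = g + 1 := ⟨h - 1, by omega⟩
        rw [show 2 * (g + 1) - 1 = 2 * g + 1 by omega, Nat.add_sub_cancel]
        ring
      rw [hn, hF]
      generalize p ^ (n : ℕ) = r at h1 h3 hr hr1
      have h5 : ((B i).card : ℝ) * (r - 1) ≤ (r : ℝ) ^ h * (R : ℝ) ^ (h - 1) := by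
        have : ((r - 1 : ℕ) : ℝ) = r - 1 := by rw [Nat.cast_sub (by omega), Nat.cast_one]
        rw [← this]
        exact_mod_cast h1
      have h6 : (r : ℝ) ^ h * (R : ℝ) ^ (h - 1) * (r : ℝ) ^ h = r * ((r : ℝ) ^ h) ^ (2 * h - 1) := by
        exact_mod_cast h3
      have h7 : (0 : ℝ) < (r : ℝ) ^ h := by positivity
      push_cast
      rw [le_div_iff₀ h7, div_mul_eq_mul_div, le_div_iff₀ (by linarith), ← h6]
      nlinarith [mul_le_mul_of_nonneg_right h5 h7.le]
    have h8 : ((univ.biUnion B).card : ℝ) ≤ ∑ i, ((B i).card : ℝ) := by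
      exact_mod_cast card_biUnion_le
    refine h8.trans ((sum_le_sum fun i _ => hB' i).trans (le_of_eq ?_))
    rw [sum_const, card_univ, Fintype.card_fin, nsmul_eq_mul]
    ring

end Pool.Agent.P.MP_636dfe_co
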