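import Mathlib

set_option autoImplicit false

open Finset Polynomial

namespace Pool.Agent.P.MP_636dfe_co

variable {F : Type*} [Field F] [Fintype F]

/-- a linear space of invertible `D × D` matrices of dimension `d ≤ D` -/
lemma exists_aniso (d D : ℕ) (hd : d ≤ D) (hD : 0 < D) :
    ∃ M : (Fin d → F) →ₗ[F] Matrix (Fin D) (Fin D) F, ∀ b, b ≠ 0 → (M b).det ≠ 0 := by
  classical
  obtain ⟨p, hp⟩ := CharP.exists F
  have : Fact p.Prime := ⟨CharP.char_is_prime F p⟩
  have : NeZero D := ⟨hD.ne'⟩
  let K := FiniteField.Extension F p D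
  have hK : Module.finrank F K = D := FiniteField.finrank_extension F p D
  let bK : Module.Basis (Fin D) F K := Module.finBasisOfFinrankEq F K hK
  obtain ⟨ι, hι⟩ : ∃ ι : (Fin d → F) →ₗ[F] K, Function.Injective ι := by
    apply finrank_le_iff_exists_linearMap.1
    simp [hK, hd]
  refine ⟨(Algebra.leftMulMatrix bK).toLinearMap ∘ₗ ι, fun b hb => ?_⟩
  have h1 : ι b ≠ 0 := fun h => hb (hι (by rw [h, map_zero]))
  have h2 := (Algebra.norm_ne_zero_iff (R := F)).2 h1
  rw [Algebra.norm_eq_matrix_det bK] at h2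
  exact h2

/-- polynomial functions whose restrictions to every line have degrees exactly `d + e`,
with the same `d ∈ [1, t]` for all `e` -/
lemma exists_clock (k t : ℕ) (hk : 2 * k ≤ t * (t + 1)) :
    ∃ P : ℕ → (Fin k → F) → F, ∀ a b : Fin k → F, b ≠ 0 → ∃ d, 1 ≤ d ∧ d ≤ t ∧
      ∀ e, ∃ f : F[X], f.natDegree = d + e ∧ ∀ τ, f.eval τ = P e (a + τ • b) := by
  classical
  let V := (d : Fin t) → (Fin (d + 1) → F)
  have hV : 2 * Module.finrank F V = t * (t + 1) := by
    have : Module.finrank F V = ∑ d : Fin t, ((d : ℕ) + 1) := by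
      simp [V, Module.finrank_pi_fintype]
    rw [this, Fin.sum_univ_eq_sum_range (fun d => d + 1) t]
    clear this hk
    induction t with
    | zero => simp
    | succ t ih => rw [sum_range_succ, mul_add, ih]; ring
  obtain ⟨ι, hι⟩ : ∃ ι : (Fin k → F) →ₗ[F] V, Function.Injective ι := by
    apply finrank_le_iff_exists_linearMap.1
    simp only [Module.finrank_fintype_fun_eq_card, Fintype.card_fin]
    omega
  have hM := fun (e : ℕ) (d : Fin t) =>
    exists_aniso (F := F) (d + 1) (d + 1 + e) (by omega) (by omega)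
  choose M hM using hM
  refine ⟨fun e x => ∑ d : Fin t, (M e d (ι x d)).det, fun a b hb => ?_⟩
  have hb' : ι b ≠ 0 := fun h => hb (hι (by rw [h, map_zero]))
  have hne : (univ.filter fun d : Fin t => ι b d ≠ 0).Nonempty := by
    by_contra h
    rw [not_nonempty_iff_eq_empty, filter_eq_empty_iff] at h
    exact hb' (funext fun d => not_not.1 (h (mem_univ d)))
  obtain ⟨d0, hd0, hmax⟩ := exists_max_image _ (fun d : Fin t => (d : ℕ)) hne
  have hd0' : ι b d0 ≠ 0 := (mem_filter.1 hd0).2
  refine ⟨d0 + 1, by omega, by have := d0.2; omega, fun e => ?_⟩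
  let g : Fin t → F[X] := fun d =>
    ((X : F[X]) • (M e d (ι b d)).map C + (M e d (ι a d)).map C).det
  have hg1 : ∀ d, (g d).natDegree ≤ d + 1 + e := fun d => by
    simpa using natDegree_det_X_add_C_le (M e d (ι b d)) (M e d (ι a d))
  have hg2 : (g d0).coeff (d0 + 1 + e) = (M e d0 (ι b d0)).det := by
    simpa using coeff_det_X_add_C_card (M e d0 (ι b d0)) (M e d0 (ι a d0))
  have hg3 : ∀ d, d ≠ d0 → (g d).natDegree < d0 + 1 + e := by
    intro d hd
    by_cases h : ι b d = 0
    · have : g d = C (M e d (ι a d)).det := by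
        simp only [g, h, map_zero, Matrix.map_zero _ (C_0), smul_zero, zero_add]
        rw [RingHom.map_det]
        rfl
      rw [this, natDegree_C]
      omega
    · have h1 := hmax d (mem_filter.2 ⟨mem_univ _, h⟩)
      have h2 : (d : ℕ) ≠ d0 := fun h => hd (Fin.ext h)
      have := hg1 d
      omega
  refine ⟨∑ d, g d, ?_, fun τ => ?_⟩
  · apply natDegree_eq_of_le_of_coeff_ne_zero
    · refine natDegree_sum_le_of_forall_le _ _ fun d _ => ?_
      by_cases h : d = d0
      · rw [h]; exact hg1 d0
      · exact (hg3 d h).le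
    · rw [finsetSum_coeff, sum_eq_single d0, hg2]
      · exact hM e d0 _ hd0'
      · intro d _ hd
        exact coeff_eq_zero_of_natDegree_lt (hg3 d hd)
      · simp
  · rw [eval_finsetSum]
    refine sum_congr rfl fun d _ => ?_
    have : (g d).eval τ = (evalRingHom τ) (g d) := rfl
    rw [this, RingHom.map_det]
    congr 1
    have e1 : ι (a + τ • b) d = ι a d + τ • ι b d := by rw [map_add, map_smul]; rfl
    rw [e1, (M e d).map_add, (M e d).map_smul]
    ext i j
    simp only [RingHom.mapMatrix_apply, Matrix.map_apply, Matrix.add_apply, Matrix.smul_apply,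
      smul_eq_mul, coe_evalRingHom, eval_add, eval_mul, eval_X, eval_C]
    ring

end Pool.Agent.P.MP_636dfe_co
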