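import Pool.Agent.P.MP_636dfe_co.Basic

set_option autoImplicit false

open Finset

namespace Pool.Agent.P.MP_636dfe_co

variable {F : Type*} [Field F] [Fintype F] [DecidableEq F]

/-- membership in the blocking set -/
def InB (χ : F → ℤ) (p : F × F × F) : Prop :=
  (p.1 = 0 ∧ ¬ (χ p.2.1 = 1 ∧ χ p.2.2 = -1)) ∨ (p.2.2 = 0 ∧ ¬ (χ p.1 = 1 ∧ χ p.2.1 = -1)) ∨
  (p.2.1 = 0 ∧ ¬ (χ p.1 * χ p.2.2 = 1)) ∨
  (p.1 + p.2.1 + p.2.2 = 1 ∧ ¬ (χ p.1 = -1 ∧ χ p.2.2 = 1))

omit [Fintype F] [DecidableEq F] in
lemma inB_blocks (χ : F → ℤ) (hmul : ∀ a b, χ (a * b) = χ a * χ b) (hneg : χ (-1) = -1)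
    (a b : F × F × F) (hb : b ≠ 0) : ∃ t : F, InB χ (a + t • b) := by
  obtain ⟨a1, a2, a3⟩ := a
  obtain ⟨b1, b2, b3⟩ := b
  by_contra hcon
  simp only [not_exists, InB, not_or, not_and, not_not, Prod.smul_mk, Prod.mk_add_mk,
    smul_eq_mul] at hcon
  have H1 : b1 ≠ 0 → χ (a2 - a1 / b1 * b2) = 1 ∧ χ (a3 - a1 / b1 * b3) = -1 := by
    intro h
    have := (hcon (-(a1 / b1))).1 (by field_simp; ring)
    rw [not_forall] at this
    obtain ⟨h1, h2⟩ := this
    rw [not_not] at h2
    exact ⟨by rw [← h1]; congr 1; ring, by rw [← h2]; congr 1; ring⟩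
  have H3 : b3 ≠ 0 → χ (a1 - a3 / b3 * b1) = 1 ∧ χ (a2 - a3 / b3 * b2) = -1 := by
    intro h
    have := (hcon (-(a3 / b3))).2.1 (by field_simp; ring)
    rw [not_forall] at this
    obtain ⟨h1, h2⟩ := this
    rw [not_not] at h2
    exact ⟨by rw [← h1]; congr 1; ring, by rw [← h2]; congr 1; ring⟩
  have H2 : b2 ≠ 0 → χ (a1 - a2 / b2 * b1) * χ (a3 - a2 / b2 * b3) = 1 := by
    intro h
    have := (hcon (-(a2 / b2))).2.2.1 (by field_simp; ring)
    rw [← this]; congr 2 <;> ring
  have H4 : b1 + b2 + b3 ≠ 0 → ∃ t : F, χ (a1 + t * b1) = -1 ∧ χ (a3 + t * b3) = 1 := by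
    intro h
    have := (hcon ((1 - a1 - a2 - a3) / (b1 + b2 + b3))).2.2.2 (by field_simp; ring)
    rw [not_forall] at this
    obtain ⟨h1, h2⟩ := this
    rw [not_not] at h2
    exact ⟨_, h1, h2⟩
  by_cases h1 : b1 = 0
  · subst h1
    by_cases h3 : b3 = 0
    · subst h3
      have h2 : b2 ≠ 0 := fun h => hb (by simp [h])
      obtain ⟨t, h4, h5⟩ := H4 (by simpa using h2)
      have h6 := H2 h2
      simp only [mul_zero, add_zero, sub_zero] at h4 h5 h6
      rw [h4, h5] at h6
      norm_num at h6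
    · obtain ⟨h4, h5⟩ := H3 h3
      simp only [mul_zero, sub_zero] at h4
      by_cases h6 : 0 + b2 + b3 = 0
      · have h7 : b2 = -b3 := by linear_combination h6
        subst h7
        have h8 := H2 (neg_ne_zero.2 h3)
        have e1 : a3 - a2 / -b3 * b3 = a2 + a3 := by field_simp; ring
        have e2 : a2 - a3 / b3 * -b3 = a2 + a3 := by field_simp; ring
        rw [e1, mul_zero, sub_zero, h4] at h8
        rw [e2] at h5
        rw [h5] at h8
        norm_num at h8
      · obtain ⟨t, h7, -⟩ := H4 h6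
        simp only [mul_zero, add_zero] at h7
        rw [h4] at h7
        norm_num at h7
  · obtain ⟨h4, h5⟩ := H1 h1
    by_cases h3 : b3 = 0
    · subst h3
      simp only [mul_zero, sub_zero] at h5
      by_cases h6 : b1 + b2 + 0 = 0
      · have h7 : b2 = -b1 := by linear_combination h6
        subst h7
        have h8 := H2 (neg_ne_zero.2 h1)
        have e1 : a1 - a2 / -b1 * b1 = a1 + a2 := by field_simp; ring
        have e2 : a2 - a1 / b1 * -b1 = a1 + a2 := by field_simp; ring
        rw [e1, mul_zero, sub_zero, h5] at h8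
        rw [e2] at h4
        rw [h4] at h8
        norm_num at h8
      · obtain ⟨t, -, h7⟩ := H4 h6
        simp only [mul_zero, add_zero] at h7
        rw [h5] at h7
        norm_num at h7
    · obtain ⟨h6, h7⟩ := H3 h3
      by_cases h2 : b2 = 0
      · subst h2
        simp only [mul_zero, sub_zero] at h4 h7
        rw [h4] at h7
        norm_num at h7
      · have h8 := H2 h2
        set w := (a2 * b1 - a1 * b2) * (a3 * b1 - a1 * b3) * (a3 * b2 - a2 * b3) / (b1 * b2 * b3)
          with hw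
        have key : (a2 - a1 / b1 * b2) * (a3 - a1 / b1 * b3) * ((a1 - a3 / b3 * b1) *
            (a2 - a3 / b3 * b2)) * ((a1 - a2 / b2 * b1) * (a3 - a2 / b2 * b3)) = -1 * (w * w) := by
          rw [hw]; field_simp; ring
        have h9 := congrArg χ key
        simp only [hmul] at h9
        rw [h4, h5, h6, h7, h8, hneg] at h9
        nlinarith [mul_self_nonneg (χ w)]

lemma quad_facts (hq : Fintype.card F % 4 = 3) :
    quadraticChar F (-1) = -1 ∧ ringChar F ≠ 2 := by
  have h2 : ringChar F ≠ 2 := by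
    intro h
    have := FiniteField.even_card_of_char_two h
    omega
  refine ⟨?_, h2⟩
  rw [quadraticChar_neg_one h2, ZMod.χ₄_nat_three_mod_four hq]

theorem blk_three (hq : Fintype.card F % 4 = 3) :
    Blk F (F × F × F) ((11 * (Fintype.card F : ℝ) ^ 2 - 9 * Fintype.card F) / 4) := by
  classical
  obtain ⟨hneg, hchar⟩ := quad_facts hq
  set χ : F → ℤ := fun a => quadraticChar F a with hχ
  have hmul : ∀ a b, χ (a * b) = χ a * χ b := fun a b => map_mul _ a b
  have h0 : χ 0 = 0 := quadraticChar_zero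
  have hdi : ∀ a, a ≠ 0 → χ a = 1 ∨ χ a = -1 := fun a ha => quadraticChar_dichotomy ha
  have hneg' : χ (-1) = -1 := hneg
  set S : Finset F := univ.filter (fun a => χ a = 1) with hS
  set N : Finset F := univ.filter (fun a => χ a = -1) with hN
  have mS : ∀ a, a ∈ S ↔ χ a = 1 := fun a => by simp [hS]
  have mN : ∀ a, a ∈ N ↔ χ a = -1 := fun a => by simp [hN]
  have hSN : S.card = N.card := by
    refine card_bij (fun a _ => -a) ?_ ?_ ?_
    · intro a ha
      rw [mN, show -a = -1 * a by ring, hmul, hneg', (mS a).1 ha]; norm_num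
    · intro a _ b _ h; exact neg_injective h
    · intro b hb
      refine ⟨-b, ?_, neg_neg b⟩
      rw [mS, show -b = -1 * b by ring, hmul, hneg', (mN b).1 hb]; norm_num
  have hcard : Fintype.card F = S.card + N.card + 1 := by
    have : (univ : Finset F) = insert 0 (S ∪ N) := by
      ext a
      simp only [mem_univ, mem_insert, mem_union, mS, mN, true_iff]
      by_cases ha : a = 0
      · exact Or.inl ha
      · exact Or.inr (hdi a ha)
    rw [← card_univ, this, card_insert_of_notMem, card_union_of_disjoint]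
    · rw [disjoint_left]
      intro a h1 h2
      rw [mS] at h1; rw [mN, h1] at h2; norm_num at h2
    · simp only [mem_union, mS, mN, h0]; norm_num
  set T : Finset F := univ.filter (fun z => χ z = -1 ∧ χ (1 - z) = 1) with hT
  have hTc : 2 * T.card + 1 ≤ S.card := by
    have hne : ∀ z ∈ T, (1 - z) ≠ 0 := by
      intro z hz h
      have := (mem_filter.1 hz).2.2
      rw [h, h0] at this; norm_num at this
    have hinv : ∀ x, χ x = 1 → χ x⁻¹ = 1 := by
      intro x hx
      have hx0 : x ≠ 0 := by rintro rfl; rw [h0] at hx; norm_num at hx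
      have := hmul x x⁻¹
      rw [mul_inv_cancel₀ hx0, hx, one_mul] at this
      rw [← this]; exact map_one _
    have i1 : (T.image (fun z => 1 - z)).card = T.card :=
      card_image_of_injective _ (fun a b h => by simpa using h)
    have i2 : (T.image (fun z => (1 - z)⁻¹)).card = T.card :=
      card_image_of_injective _ (fun a b h => by simpa using h)
    have p1 : ∀ x ∈ T.image (fun z => 1 - z), χ x = 1 ∧ χ (1 - x) = -1 := by
      intro x hx
      obtain ⟨z, hz, rfl⟩ := mem_image.1 hx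
      obtain ⟨h1, h2⟩ := (mem_filter.1 hz).2
      exact ⟨h2, by rw [sub_sub_cancel]; exact h1⟩
    have p2 : ∀ x ∈ T.image (fun z => (1 - z)⁻¹), χ x = 1 ∧ χ (1 - x) = 1 := by
      intro x hx
      obtain ⟨z, hz, rfl⟩ := mem_image.1 hx
      obtain ⟨h1, h2⟩ := (mem_filter.1 hz).2
      refine ⟨hinv _ h2, ?_⟩
      have := hne z hz
      rw [show 1 - (1 - z)⁻¹ = -1 * z * (1 - z)⁻¹ by field_simp; ring, hmul, hmul, hneg', h1,
        hinv _ h2]
      norm_num
    have hsub : insert 1 (T.image (fun z => 1 - z) ∪ T.image (fun z => (1 - z)⁻¹)) ⊆ S := by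
      intro x hx
      rw [mS]
      rcases mem_insert.1 hx with rfl | hx
      · exact map_one _
      · rcases mem_union.1 hx with hx | hx
        · exact (p1 x hx).1
        · exact (p2 x hx).1
    have := card_le_card hsub
    rw [card_insert_of_notMem, card_union_of_disjoint, i1, i2] at this
    · omega
    · rw [disjoint_left]
      intro a h1 h2
      have h3 := (p1 a h1).2
      rw [(p2 a h2).2] at h3; norm_num at h3
    · intro h
      rcases mem_union.1 h with h | h
      · have := (p1 _ h).2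
        rw [sub_self, h0] at this; norm_num at this
      · have := (p2 _ h).2
        rw [sub_self, h0] at this; norm_num at this
  refine ⟨univ.filter (InB χ), fun a b hb => ?_, ?_⟩
  · obtain ⟨t, ht⟩ := inB_blocks χ hmul hneg' a b hb
    exact ⟨t, mem_filter.2 ⟨mem_univ _, ht⟩⟩
  set U1 := ((univ : Finset F) ×ˢ Nᶜ ∪ Sᶜ ×ˢ N).image (fun p : F × F => ((0 : F), p.1, p.2))
  set U3 := T.image (fun z : F => ((0 : F), 1 - z, z))
  set U4 := (N ×ˢ (univ : Finset F) ∪ S ×ˢ Nᶜ).image (fun p : F × F => (p.1, p.2, (0 : F)))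
  set U6 := (S ×ˢ N).image
    (fun p : F × F => if p.1 + p.2 = 1 then (p.1, p.2, (0 : F)) else (p.1, (0 : F), p.2))
  set U7 := (N ×ˢ S).image (fun p : F × F => (p.1, (0 : F), p.2))
  set U9 := (S ×ˢ S ∪ S ×ˢ N ∪ N ×ˢ N).image (fun p : F × F => (p.1, 1 - p.1 - p.2, p.2))
  have hsub : univ.filter (InB χ) ⊆ U1 ∪ U3 ∪ U4 ∪ U6 ∪ U7 ∪ U9 := by
    rintro ⟨x, y, z⟩ hp
    have hp := (mem_filter.1 hp).2
    simp only [InB] at hp
    have i1 : (x, y, z) ∈ U1 → (x, y, z) ∈ U1 ∪ U3 ∪ U4 ∪ U6 ∪ U7 ∪ U9 := fun h =>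
      mem_union_left _ (mem_union_left _ (mem_union_left _ (mem_union_left _ (mem_union_left _ h))))
    have i3 : (x, y, z) ∈ U3 → (x, y, z) ∈ U1 ∪ U3 ∪ U4 ∪ U6 ∪ U7 ∪ U9 := fun h =>
      mem_union_left _ (mem_union_left _ (mem_union_left _ (mem_union_left _ (mem_union_right _ h))))
    have i4 : (x, y, z) ∈ U4 → (x, y, z) ∈ U1 ∪ U3 ∪ U4 ∪ U6 ∪ U7 ∪ U9 := fun h =>
      mem_union_left _ (mem_union_left _ (mem_union_left _ (mem_union_right _ h)))
    have i6 : (x, y, z) ∈ U6 → (x, y, z) ∈ U1 ∪ U3 ∪ U4 ∪ U6 ∪ U7 ∪ U9 := fun h =>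
      mem_union_left _ (mem_union_left _ (mem_union_right _ h))
    have i7 : (x, y, z) ∈ U7 → (x, y, z) ∈ U1 ∪ U3 ∪ U4 ∪ U6 ∪ U7 ∪ U9 := fun h =>
      mem_union_left _ (mem_union_right _ h)
    have i9 : (x, y, z) ∈ U9 → (x, y, z) ∈ U1 ∪ U3 ∪ U4 ∪ U6 ∪ U7 ∪ U9 := fun h =>
      mem_union_right _ h
    have m1 : x = 0 → ¬ (χ y = 1 ∧ χ z = -1) → (x, y, z) ∈ U1 := by
      rintro rfl h
      refine mem_image.2 ⟨(y, z), ?_, rfl⟩
      simp only [mem_union, mem_product, mem_univ, mem_compl, mS, mN, true_and]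
      by_cases h2 : χ z = -1
      · exact Or.inr ⟨fun h1 => h ⟨h1, h2⟩, h2⟩
      · exact Or.inl h2
    have m4 : z = 0 → x ≠ 0 → ¬ (χ x = 1 ∧ χ y = -1) → (x, y, z) ∈ U4 := by
      rintro rfl hx h
      refine mem_image.2 ⟨(x, y), ?_, rfl⟩
      simp only [mem_union, mem_product, mem_univ, mem_compl, mS, mN, and_true]
      rcases hdi x hx with h1 | h1
      · exact Or.inr ⟨h1, fun h2 => h ⟨h1, h2⟩⟩
      · exact Or.inl h1
    by_cases hx : x = 0
    · by_cases h : χ y = 1 ∧ χ z = -1
      · have hy : y ≠ 0 := by rintro rfl; rw [h0] at h; norm_num at h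
        have hz : z ≠ 0 := by rintro rfl; rw [h0] at h; norm_num at h
        have h4 : x + y + z = 1 := by
          rcases hp with hp | hp | hp | hp
          · exact absurd h hp.2
          · exact absurd hp.1 hz
          · exact absurd hp.1 hy
          · exact hp.1
        have e : y = 1 - z := by rw [← h4, hx]; ring
        refine i3 (mem_image.2 ⟨z, mem_filter.2 ⟨mem_univ _, h.2, e ▸ h.1⟩, ?_⟩)
        rw [hx, e]
      · exact i1 (m1 hx h)
    by_cases hz : z = 0
    · by_cases h : χ x = 1 ∧ χ y = -1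
      · have hy : y ≠ 0 := by rintro rfl; rw [h0] at h; norm_num at h
        have h4 : x + y + z = 1 := by
          rcases hp with hp | hp | hp | hp
          · exact absurd hp.1 hx
          · exact absurd h hp.2
          · exact absurd hp.1 hy
          · exact hp.1
        refine i6 (mem_image.2 ⟨(x, y), mem_product.2 ⟨(mS x).2 h.1, (mN y).2 h.2⟩, ?_⟩)
        rw [hz, add_zero] at h4
        show (if x + y = 1 then (x, y, (0 : F)) else (x, (0 : F), y)) = (x, y, z)
        rw [if_pos h4, hz]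
      · exact i4 (m4 hz hx h)
    have m9 : x + y + z = 1 → ¬ (χ x = -1 ∧ χ z = 1) → (x, y, z) ∈ U9 := by
      intro h4 h
      refine mem_image.2 ⟨(x, z), ?_, ?_⟩
      · simp only [mem_union, mem_product, mS, mN]
        rcases hdi x hx with h1 | h1 <;> rcases hdi z hz with h2 | h2
        · exact Or.inl (Or.inl ⟨h1, h2⟩)
        · exact Or.inl (Or.inr ⟨h1, h2⟩)
        · exact absurd ⟨h1, h2⟩ h
        · exact Or.inr ⟨h1, h2⟩
      · simp only [Prod.mk.injEq, true_and, and_true]
        rw [← h4]; ring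
    rcases hp with hp | hp | hp | hp
    · exact absurd hp.1 hx
    · exact absurd hp.1 hz
    · obtain ⟨hy, h⟩ := hp
      rcases hdi x hx with h1 | h1 <;> rcases hdi z hz with h2 | h2
      · rw [h1, h2] at h; norm_num at h
      · by_cases h4 : x + z = 1
        · exact i9 (m9 (by rw [hy, add_zero]; exact h4) (by rw [h1]; norm_num))
        · refine i6 (mem_image.2 ⟨(x, z), mem_product.2 ⟨(mS x).2 h1, (mN z).2 h2⟩, ?_⟩)
          show (if x + z = 1 then (x, z, (0 : F)) else (x, (0 : F), z)) = (x, y, z)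
          rw [if_neg h4, hy]
      · exact i7 (mem_image.2 ⟨(x, z), mem_product.2 ⟨(mN x).2 h1, (mS z).2 h2⟩, by rw [hy]⟩)
      · rw [h1, h2] at h; norm_num at h
    · exact i9 (m9 hp.1 hp.2)
  set h := S.card with hh
  have cN : N.card = h := hSN.symm
  have cq : Fintype.card F = 2 * h + 1 := by omega
  have cSc : (Sᶜ).card = h + 1 := by rw [card_compl]; omega
  have cNc : (Nᶜ).card = h + 1 := by rw [card_compl]; omega
  have c1 : U1.card ≤ (2 * h + 1) * (h + 1) + (h + 1) * h := by
    refine card_image_le.trans ((card_union_le _ _).trans (le_of_eq ?_))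
    rw [card_product, card_product, card_univ, cq, cNc, cSc, cN]
  have c3 : U3.card ≤ T.card := card_image_le
  have c4 : U4.card ≤ h * (2 * h + 1) + h * (h + 1) := by
    refine card_image_le.trans ((card_union_le _ _).trans (le_of_eq ?_))
    rw [card_product, card_product, card_univ, cq, cNc, cN]
  have c6 : U6.card ≤ h * h := by
    refine card_image_le.trans (le_of_eq ?_)
    rw [card_product, cN]
  have c7 : U7.card ≤ h * h := by
    refine card_image_le.trans (le_of_eq ?_)
    rw [card_product, cN]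
  have c9 : U9.card ≤ h * h + h * h + h * h := by
    refine card_image_le.trans ((card_union_le _ _).trans ?_)
    refine (Nat.add_le_add_right (card_union_le _ _) _).trans (le_of_eq ?_)
    rw [card_product, card_product, card_product, cN]
  have tot : (univ.filter (InB χ)).card
      ≤ U1.card + U3.card + U4.card + U6.card + U7.card + U9.card := by
    refine (card_le_card hsub).trans ?_
    have a1 := card_union_le (U1 ∪ U3 ∪ U4 ∪ U6 ∪ U7) U9
    have a2 := card_union_le (U1 ∪ U3 ∪ U4 ∪ U6) U7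
    have a3 := card_union_le (U1 ∪ U3 ∪ U4) U6
    have a4 := card_union_le (U1 ∪ U3) U4
    have a5 := card_union_le U1 U3
    omega
  have fin : 4 * (univ.filter (InB χ)).card ≤ 44 * h ^ 2 + 26 * h + 2 := by nlinarith
  have fin' : (4 : ℝ) * (univ.filter (InB χ)).card ≤ 44 * (h : ℝ) ^ 2 + 26 * h + 2 := by
    exact_mod_cast fin
  rw [cq]
  push_cast
  linarith

end Pool.Agent.P.MP_636dfe_co
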