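import Pool.Agent.P.MP_636dfe_co.Norm

set_option autoImplicit false

open Finset Polynomial

namespace Pool.Agent.P.MP_636dfe_co

/-- a pair of disjoint sets such that in a zero-sum family the number of members of the first set
is zero or odd, and families taken from one of the two sets are constant -/
def Good (ι : Type*) [Fintype ι] {V : Type*} [AddCommGroup V] [DecidableEq V]
    (C K : Finset V) : Prop :=
  Disjoint C K ∧ ∀ x : ι → V, (∀ τ, x τ ∈ C ∨ x τ ∈ K) → ∑ τ, x τ = 0 →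
    ((univ.filter fun τ => x τ ∈ C).card = 0 ∨ (univ.filter fun τ => x τ ∈ C).card % 2 = 1) ∧
    ((univ.filter fun τ => x τ ∈ C).card = 0 ∨
      (univ.filter fun τ => x τ ∈ C).card = Fintype.card ι → ∀ τ σ, x τ = x σ)

/-- existence of a good pair with given sizes -/
def GP (ι : Type*) [Fintype ι] (V : Type*) [AddCommGroup V] [DecidableEq V] (c k : ℕ) : Prop :=
  ∃ C K : Finset V, C.card = c ∧ K.card = k ∧ Good ι C K

variable {ι : Type*} [Fintype ι]

lemma GP.wreath {U V W : Type*} [AddCommGroup U] [DecidableEq U] [AddCommGroup V] [DecidableEq V]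
    [AddCommGroup W] [DecidableEq W] {c1 k1 c2 k2 c3 k3 : ℕ}
    (h1 : GP ι U c1 k1) (h2 : GP ι V c2 k2) (h3 : GP ι W c3 k3) :
    GP ι (U × V × W) (k1 * (c2 * c3) + c1 * (k2 * c3) + c1 * (c2 * k3)) (k1 * (k2 * k3)) := by
  obtain ⟨C1, K1, rfl, rfl, d1, g1⟩ := h1
  obtain ⟨C2, K2, rfl, rfl, d2, g2⟩ := h2
  obtain ⟨C3, K3, rfl, rfl, d3, g3⟩ := h3
  have e1 : ∀ u, u ∈ K1 → u ∉ C1 := fun u h h' => disjoint_left.1 d1 h' h
  have e2 : ∀ u, u ∈ K2 → u ∉ C2 := fun u h h' => disjoint_left.1 d2 h' h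
  have e3 : ∀ u, u ∈ K3 → u ∉ C3 := fun u h h' => disjoint_left.1 d3 h' h
  refine ⟨K1 ×ˢ C2 ×ˢ C3 ∪ C1 ×ˢ K2 ×ˢ C3 ∪ C1 ×ˢ C2 ×ˢ K3, K1 ×ˢ K2 ×ˢ K3, ?_, ?_, ?_, ?_⟩
  · rw [card_union_of_disjoint, card_union_of_disjoint]
    · simp only [card_product]
    · rw [disjoint_left]
      intro u h h'
      simp only [mem_product] at h h'
      exact e1 _ h.1 h'.1
    · rw [disjoint_left]
      intro u h h'
      simp only [mem_union, mem_product] at h h'
      rcases h with h | h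
      · exact e1 _ h.1 h'.1
      · exact e2 _ h.2.1 h'.2.1
  · simp only [card_product]
  · rw [disjoint_left]
    intro u h h'
    simp only [mem_union, mem_product] at h h'
    rcases h with (h | h) | h
    · exact e2 _ h'.2.1 h.2.1
    · exact e1 _ h'.1 h.1
    · exact e1 _ h'.1 h.1
  intro x hx hs
  set C := K1 ×ˢ C2 ×ˢ C3 ∪ C1 ×ˢ K2 ×ˢ C3 ∪ C1 ×ˢ C2 ×ˢ K3 with hC
  have cases : ∀ τ, (x τ ∈ C ∧ (x τ).1 ∈ K1 ∧ (x τ).2.1 ∈ C2 ∧ (x τ).2.2 ∈ C3) ∨
      (x τ ∈ C ∧ (x τ).1 ∈ C1 ∧ (x τ).2.1 ∈ K2 ∧ (x τ).2.2 ∈ C3) ∨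
      (x τ ∈ C ∧ (x τ).1 ∈ C1 ∧ (x τ).2.1 ∈ C2 ∧ (x τ).2.2 ∈ K3) ∨
      (x τ ∉ C ∧ (x τ).1 ∈ K1 ∧ (x τ).2.1 ∈ K2 ∧ (x τ).2.2 ∈ K3) := by
    intro τ
    by_cases h : x τ ∈ C
    · have h' := h
      simp only [hC, mem_union, mem_product] at h'
      rcases h' with (h' | h') | h'
      · exact Or.inl ⟨h, h'⟩
      · exact Or.inr (Or.inl ⟨h, h'⟩)
      · exact Or.inr (Or.inr (Or.inl ⟨h, h'⟩))
    · have h' := (hx τ).resolve_left h
      simp only [mem_product] at h'
      exact Or.inr (Or.inr (Or.inr ⟨h, h'⟩))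
  have s1 : ∑ τ, (x τ).1 = 0 := by rw [← Prod.fst_sum, hs]; rfl
  have s2 : ∑ τ, (x τ).2.1 = 0 := by rw [← Prod.fst_sum, ← Prod.snd_sum, hs]; rfl
  have s3 : ∑ τ, (x τ).2.2 = 0 := by rw [← Prod.snd_sum, ← Prod.snd_sum, hs]; rfl
  obtain ⟨a1, b1⟩ := g1 (fun τ => (x τ).1) (fun τ => by
    rcases cases τ with h | h | h | h <;> simp [h.2.1]) s1
  obtain ⟨a2, b2⟩ := g2 (fun τ => (x τ).2.1) (fun τ => by
    rcases cases τ with h | h | h | h <;> simp [h.2.2.1]) s2
  obtain ⟨a3, b3⟩ := g3 (fun τ => (x τ).2.2) (fun τ => by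
    rcases cases τ with h | h | h | h <;> simp [h.2.2.2]) s3
  have cnt : 2 * (univ.filter fun τ => x τ ∈ C).card
      = (univ.filter fun τ => (x τ).1 ∈ C1).card + (univ.filter fun τ => (x τ).2.1 ∈ C2).card
        + (univ.filter fun τ => (x τ).2.2 ∈ C3).card := by
    simp only [card_filter]
    rw [mul_sum, ← sum_add_distrib, ← sum_add_distrib]
    refine sum_congr rfl fun τ _ => ?_
    rcases cases τ with ⟨h0, h1, h2, h3⟩ | ⟨h0, h1, h2, h3⟩ | ⟨h0, h1, h2, h3⟩ | ⟨h0, h1, h2, h3⟩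
    · rw [if_pos h0, if_neg (e1 _ h1), if_pos h2, if_pos h3]; omega
    · rw [if_pos h0, if_pos h1, if_neg (e2 _ h2), if_pos h3]; omega
    · rw [if_pos h0, if_pos h1, if_pos h2, if_neg (e3 _ h3)]; omega
    · rw [if_neg h0, if_neg (e1 _ h1), if_neg (e2 _ h2), if_neg (e3 _ h3)]; omega
  have l1 : (univ.filter fun τ => (x τ).1 ∈ C1).card ≤ (univ.filter fun τ => x τ ∈ C).card := by
    refine card_le_card fun τ h => mem_filter.2 ⟨mem_univ _, ?_⟩
    rcases cases τ with h' | h' | h' | h'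
    · exact h'.1
    · exact h'.1
    · exact h'.1
    · exact absurd (mem_filter.1 h).2 (e1 _ h'.2.1)
  have l2 : (univ.filter fun τ => (x τ).2.1 ∈ C2).card ≤ (univ.filter fun τ => x τ ∈ C).card := by
    refine card_le_card fun τ h => mem_filter.2 ⟨mem_univ _, ?_⟩
    rcases cases τ with h' | h' | h' | h'
    · exact h'.1
    · exact h'.1
    · exact h'.1
    · exact absurd (mem_filter.1 h).2 (e2 _ h'.2.2.1)
  have l3 : (univ.filter fun τ => (x τ).2.2 ∈ C3).card ≤ (univ.filter fun τ => x τ ∈ C).card := by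
    refine card_le_card fun τ h => mem_filter.2 ⟨mem_univ _, ?_⟩
    rcases cases τ with h' | h' | h' | h'
    · exact h'.1
    · exact h'.1
    · exact h'.1
    · exact absurd (mem_filter.1 h).2 (e3 _ h'.2.2.2)
  refine ⟨by omega, fun h τ σ => ?_⟩
  exact Prod.ext (b1 (by omega) τ σ) (Prod.ext (b2 (by omega) τ σ) (b3 (by omega) τ σ))

lemma GP.equiv {V W : Type*} [AddCommGroup V] [DecidableEq V] [AddCommGroup W] [DecidableEq W]
    {c k : ℕ} (e : V ≃+ W) (h : GP ι V c k) : GP ι W c k := by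
  obtain ⟨C, K, rfl, rfl, d, g⟩ := h
  have hm : ∀ (A : Finset V) (w : W), w ∈ A.image e ↔ e.symm w ∈ A := by
    intro A w
    rw [mem_image]
    constructor
    · rintro ⟨u, hu, rfl⟩
      rwa [e.symm_apply_apply]
    · exact fun h => ⟨_, h, e.apply_symm_apply w⟩
  refine ⟨C.image e, K.image e, card_image_of_injective _ e.injective,
    card_image_of_injective _ e.injective, (disjoint_image e.injective).2 d, fun x hx hs => ?_⟩
  simp only [hm] at hx ⊢
  obtain ⟨h1, h2⟩ := g (fun τ => e.symm (x τ)) hx (by rw [← map_sum, hs, map_zero])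
  exact ⟨h1, fun h τ σ => e.symm.injective (h2 h τ σ)⟩

lemma GP.of_finrank {F V : Type*} [Field F] [DecidableEq F] [AddCommGroup V] [DecidableEq V]
    [Module F V] [Module.Finite F V] {c k : ℕ} (m c' k' : ℕ) (h : GP ι V c k)
    (hm : Module.finrank F V = m) (hc : c = c') (hk : k = k') : GP ι (Fin m → F) c' k' :=
  hc ▸ hk ▸ h.equiv (LinearEquiv.ofFinrankEq V (Fin m → F) (R := F) (by simp [hm])).toAddEquiv

lemma gp_base (p : ℕ) [Fact p.Prime] (hp : p ≠ 2) : GP (ZMod p) (ZMod p) 1 2 := by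
  have hp' : p.Prime := Fact.out
  have hodd : p % 2 = 1 := hp'.eq_two_or_odd.resolve_left hp
  have h2 : (2 : ZMod p) ≠ 0 := by
    intro h
    have : (p : ℕ) ∣ 2 := (ZMod.natCast_eq_zero_iff 2 p).1 (by exact_mod_cast h)
    exact hp ((Nat.prime_dvd_prime_iff_eq hp' Nat.prime_two).1 this)
  have h3 : (1 : ZMod p) ≠ -1 := fun h => h2 (by linear_combination h)
  refine ⟨{0}, {1, -1}, by simp, card_pair h3, by simp, fun x hx hs => ?_⟩
  simp only [mem_singleton, mem_insert] at hx ⊢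
  have tot : (univ.filter fun τ => x τ = 0).card + (univ.filter fun τ => x τ = 1).card
      + (univ.filter fun τ => x τ = -1).card = p := by
    simp only [card_filter]
    rw [← sum_add_distrib, ← sum_add_distrib]
    have : ∑ τ : ZMod p, 1 = p := by simp
    refine Eq.trans (sum_congr rfl fun τ _ => ?_) this
    rcases hx τ with h | h | h
    · simp [h]
    · simp [h, h3]
    · simp [h, h3.symm]
  have hsum : ((univ.filter fun τ => x τ = 1).card : ZMod p)
      = (univ.filter fun τ => x τ = -1).card := by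
    rw [← sub_eq_zero, ← hs]
    simp only [card_filter, Nat.cast_sum]
    rw [← sum_sub_distrib]
    refine sum_congr rfl fun τ _ => ?_
    rcases hx τ with h | h | h
    · simp [h]
    · simp [h, h3]
    · simp [h, h3.symm]
  rw [ZMod.natCast_eq_natCast_iff'] at hsum
  have hall : ∀ c : ZMod p, (univ.filter fun τ => x τ = c).card = p → ∀ τ σ, x τ = x σ := by
    intro c hc τ σ
    have : (univ.filter fun τ => x τ = c) = univ := by
      apply eq_univ_of_card
      rw [hc, ZMod.card]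
    have h1 := (mem_filter.1 (this ▸ mem_univ τ)).2
    have h2 := (mem_filter.1 (this ▸ mem_univ σ)).2
    rw [h1, h2]
  set a := (univ.filter fun τ => x τ = 1).card
  set b := (univ.filter fun τ => x τ = -1).card
  set s := (univ.filter fun τ => x τ = 0).card
  have hab : a = b ∨ a = p ∨ b = p := by
    rcases Nat.lt_or_ge a p with h | h
    · rcases Nat.lt_or_ge b p with h' | h'
      · rw [Nat.mod_eq_of_lt h, Nat.mod_eq_of_lt h'] at hsum
        exact Or.inl hsum
      · omega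
    · omega
  rw [ZMod.card]
  refine ⟨by omega, fun h => ?_⟩
  rcases h with h | h
  · rcases hab with h' | h' | h'
    · omega
    · exact hall 1 h'
    · exact hall (-1) h'
  · exact hall 0 h

/-- a set of at least `c` points all of whose zero-sum families are constant -/
def ZS (ι : Type*) [Fintype ι] (V : Type*) [AddCommGroup V] (c : ℕ) : Prop :=
  ∃ C : Finset V, c ≤ C.card ∧
    ∀ x : ι → V, (∀ τ, x τ ∈ C) → ∑ τ, x τ = 0 → ∀ τ σ, x τ = x σ

lemma GP.zs1 {V : Type*} [AddCommGroup V] [DecidableEq V] {c k : ℕ} (h : GP ι V c k) :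
    ZS ι V c := by
  obtain ⟨C, K, rfl, rfl, -, g⟩ := h
  refine ⟨C, le_rfl, fun x hx hs => (g x (fun τ => Or.inl (hx τ)) hs).2 (Or.inr ?_)⟩
  simp [hx]

lemma GP.zs2 {V : Type*} [AddCommGroup V] [DecidableEq V] {c k : ℕ} (h : GP ι V c k) :
    ZS ι V k := by
  obtain ⟨C, K, rfl, rfl, d, g⟩ := h
  refine ⟨K, le_rfl, fun x hx hs => (g x (fun τ => Or.inr (hx τ)) hs).2 (Or.inl ?_)⟩
  rw [card_eq_zero, filter_eq_empty_iff]
  exact fun τ _ h => disjoint_left.1 d h (hx τ)

lemma ZS.equiv {V W : Type*} [AddCommGroup V] [AddCommGroup W] {c : ℕ} (e : V ≃+ W)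
    (h : ZS ι V c) : ZS ι W c := by
  classical
  obtain ⟨C, h1, h2⟩ := h
  refine ⟨C.image e, by rwa [card_image_of_injective _ e.injective], fun x hx hs τ σ => ?_⟩
  have := h2 (fun τ => e.symm (x τ)) (fun τ => by
    obtain ⟨u, hu, h⟩ := mem_image.1 (hx τ)
    rw [← h, e.symm_apply_apply]; exact hu) (by rw [← map_sum, hs, map_zero]) τ σ
  exact e.symm.injective this

lemma ZS.prod {V W : Type*} [AddCommGroup V] [AddCommGroup W] {c d : ℕ}
    (h : ZS ι V c) (h' : ZS ι W d) : ZS ι (V × W) (c * d) := by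
  obtain ⟨C, h1, h2⟩ := h
  obtain ⟨D, h3, h4⟩ := h'
  refine ⟨C ×ˢ D, by rw [card_product]; exact Nat.mul_le_mul h1 h3, fun x hx hs τ σ => ?_⟩
  refine Prod.ext (h2 (fun τ => (x τ).1) (fun τ => (mem_product.1 (hx τ)).1) ?_ τ σ)
    (h4 (fun τ => (x τ).2) (fun τ => (mem_product.1 (hx τ)).2) ?_ τ σ)
  · rw [← Prod.fst_sum, hs]; rfl
  · rw [← Prod.snd_sum, hs]; rfl

lemma ZS.of_finrank {F V : Type*} [Field F] [AddCommGroup V] [Module F V] [Module.Finite F V]
    {m c : ℕ} (hm : Module.finrank F V = m) (h : ZS ι V c) : ZS ι (Fin m → F) c :=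
  h.equiv (LinearEquiv.ofFinrankEq V (Fin m → F) (R := F) (by simp [hm])).toAddEquiv

lemma zs_main (p : ℕ) [Fact p.Prime] (hp : p ≠ 2) (j i : ℕ) :
    ZS (ZMod p) (Fin (39 * j + i) → ZMod p) (13800409399296 ^ j * 2 ^ i) := by
  have g1 := gp_base p hp
  have g3 := (g1.wreath g1 g1).of_finrank (F := ZMod p) 3 6 8 (by simp) (by norm_num) (by norm_num)
  have g9 := (g3.wreath g3 g3).of_finrank (F := ZMod p) 9 864 512 (by simp) (by norm_num)
    (by norm_num)
  have g19 := (g1.wreath g9 g9).of_finrank (F := ZMod p) 19 2377728 524288 (by simp) (by norm_num)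
    (by norm_num)
  have g39 := (g1.wreath g19 g19).of_finrank (F := ZMod p) 39 13800409399296 549755813888
    (by simp) (by norm_num) (by norm_num)
  have z39 := g39.zs1
  have z1 := g1.zs2
  induction i with
  | zero =>
    induction j with
    | zero =>
      exact ⟨{0}, by simp, fun x _ _ τ σ => Subsingleton.elim (α := Fin 0 → ZMod p) _ _⟩
    | succ j ih =>
      have := ZS.of_finrank (F := ZMod p) (m := 39 * (j + 1) + 0) (by simp; ring) (ih.prod z39)
      convert this using 1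
      ring
  | succ i ih =>
    have := ZS.of_finrank (F := ZMod p) (m := 39 * j + (i + 1)) (by simp; ring) (ih.prod z1)
    convert this using 1
    ring

theorem blk_zs (p : ℕ) [Fact p.Prime] (m c k : ℕ) (hz : ZS (ZMod p) (Fin m → ZMod p) c)
    (hk : 2 * k ≤ m * ((p - 1) * (p - 2))) :
    ∃ B : Finset (Fin k → ZMod p),
      (∀ a b : Fin k → ZMod p, b ≠ 0 → ∃ τ : ZMod p, a + τ • b ∈ B) ∧
      (B.card : ℝ) ≤ (1 - c / (p : ℝ) ^ m) * (p : ℝ) ^ k := by
  classical
  have hp' : p.Prime := Fact.out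
  have hp2 := hp'.two_le
  obtain ⟨N, hN⟩ : ∃ N, (p - 2) * (p - 2 + 1) = 2 * N := (Nat.even_mul_succ_self (p - 2)).two_dvd
  have hN' : (p - 1) * (p - 2) = 2 * N := by
    rw [← hN, mul_comm]; congr 1; omega
  obtain ⟨P, hP⟩ := exists_clock (F := ZMod p) N (p - 2) hN.ge
  obtain ⟨ι, hι⟩ : ∃ ι : (Fin k → ZMod p) →ₗ[ZMod p] (Fin m → Fin N → ZMod p),
      Function.Injective ι := by
    apply finrank_le_iff_exists_linearMap.1
    simp only [Module.finrank_pi_fintype, Module.finrank_self, sum_const, card_univ,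
      Fintype.card_fin, smul_eq_mul, mul_one]
    rw [hN'] at hk
    nlinarith
  obtain ⟨C, hC, hz⟩ := hz
  let Φ : (Fin k → ZMod p) → (Fin m → ZMod p) := fun x i => P 0 (ι x i)
  have hpm : (0 : ℝ) < (p : ℝ) ^ m := by positivity
  obtain ⟨u, -, hu⟩ : ∃ u ∈ (univ : Finset (Fin m → ZMod p)), (c : ℝ) / (p : ℝ) ^ m * (p : ℝ) ^ k
      ≤ ((univ.filter fun x => Φ x + u ∈ C).card : ℝ) := by
    apply exists_le_of_sum_le univ_nonempty
    have h1 : ∑ u : Fin m → ZMod p, (univ.filter fun x => Φ x + u ∈ C).card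
        = ∑ _x : Fin k → ZMod p, C.card := by
      simp only [card_filter]
      rw [sum_comm]
      refine sum_congr rfl fun x _ => ?_
      rw [← card_filter]
      refine card_bij (fun u _ => Φ x + u) (fun u hu => (mem_filter.1 hu).2)
        (fun u _ v _ h => add_left_cancel h) (fun y hy => ⟨y - Φ x, ?_, by simp⟩)
      simpa using hy
    rw [← Nat.cast_sum, h1]
    simp only [sum_const, card_univ, Fintype.card_fun, ZMod.card, Fintype.card_fin, smul_eq_mul,
      nsmul_eq_mul]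
    push_cast
    have h2 : (c : ℝ) ≤ C.card := by exact_mod_cast hC
    have h3 : (p : ℝ) ^ m * (c / (p : ℝ) ^ m * (p : ℝ) ^ k) = (p : ℝ) ^ k * c := by field_simp
    rw [h3]
    exact mul_le_mul_of_nonneg_left h2 (by positivity)
  refine ⟨(univ.filter fun x => Φ x + u ∈ C)ᶜ, fun a b hb => ?_, ?_⟩
  · by_contra hcon
    have hin : ∀ τ : ZMod p, Φ (a + τ • b) + u ∈ C := by
      intro τ
      by_contra h
      exact hcon ⟨τ, mem_compl.2 fun h' => h (mem_filter.1 h').2⟩
    have e1 : ∀ (τ : ZMod p) i, ι (a + τ • b) i = ι a i + τ • ι b i := fun τ i => by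
      rw [map_add, map_smul]; rfl
    have hsum : ∑ τ : ZMod p, (Φ (a + τ • b) + u) = 0 := by
      ext i
      rw [Finset.sum_apply]
      simp only [Pi.add_apply, sum_add_distrib, sum_const, card_univ, ZMod.card, nsmul_eq_mul,
        CharP.cast_eq_zero, zero_mul, add_zero, Pi.zero_apply, Φ, e1]
      by_cases h : ι b i = 0
      · simp [h]
      · obtain ⟨d, -, hd2, hf⟩ := hP (ι a i) (ι b i) h
        obtain ⟨f, hf1, hf2⟩ := hf 0
        simp only [← hf2, eval_eq_sum_range]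
        rw [sum_comm]
        refine sum_eq_zero fun n hn => ?_
        rw [← mul_sum, FiniteField.sum_pow_lt_card_sub_one, mul_zero]
        have := mem_range.1 hn
        rw [ZMod.card]
        omega
    have hconst := hz _ hin hsum
    have hb' : ι b ≠ 0 := fun h => hb (hι (by rw [h, map_zero]))
    obtain ⟨i, hi⟩ := Function.ne_iff.1 hb'
    obtain ⟨d, hd1, hd2, hf⟩ := hP (ι a i) (ι b i) hi
    obtain ⟨f, hf1, hf2⟩ := hf 0
    have hz0 : f - Polynomial.C (f.eval 0) = 0 := by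
      apply eq_zero_of_natDegree_lt_card_of_eval_eq_zero _ (Function.injective_id (α := ZMod p))
      · intro τ
        have := congrFun (add_right_cancel (hconst τ 0)) i
        simp only [Φ, e1, ← hf2] at this
        simp [this]
      · rw [natDegree_sub_C, ZMod.card]
        omega
    have := natDegree_sub_C (p := f) (a := f.eval 0)
    rw [hz0, natDegree_zero] at this
    omega
  · rw [card_compl, Nat.cast_sub (card_le_univ _)]
    simp only [Fintype.card_fun, ZMod.card, Fintype.card_fin]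
    push_cast
    linarith

end Pool.Agent.P.MP_636dfe_co
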